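import Pool.Agent.Helper14.EP.Base

/-! # ALG: the matrices approximated by regulators of cycles form a real subspace (helper34) -/

noncomputable section

open Complex MeasureTheory ComplexConjugate

namespace Pool.Agent.Helper14.EP

variable {l : ℂ}

/-- multiply the multiplicity -/
def Term.mulN (k : ℤ) (t : Term l) : Term l := { t with n := k * t.n }

theorem alg_reg_mulN (k : ℤ) (t : Term l) : (t.mulN k).reg = (k : ℂ) • t.reg := by
  funext a b
  simp only [Term.reg, Term.mulN, Matrix.smul_apply, smul_eq_mul]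
  push_cast
  rw [mul_assoc]
  rfl

theorem alg_bdry_mulN (k : ℤ) (t : Term l) (x : Fin 4 → E l) (P : Crv l) :
    (t.mulN k).bdry x P = t.bdry x P := rfl

theorem alg_reg_append (ξ η : List (Term l)) : reg (ξ ++ η) = reg ξ + reg η := by
  simp [reg]

theorem alg_reg_map (k : ℤ) (ξ : List (Term l)) : reg (ξ.map (Term.mulN k)) = (k : ℂ) • reg ξ := by
  induction ξ with
  | nil => simp [reg]
  | cons t ξ ih =>
    have h1 : reg (t :: ξ) = t.reg + reg ξ := by simp [reg]
    have h2 : reg ((t :: ξ).map (Term.mulN k)) = (t.mulN k).reg + reg (ξ.map (Term.mulN k)) := by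
      simp [reg]
    rw [h1, h2, ih, alg_reg_mulN, smul_add]

theorem alg_sum_map (k : ℤ) (ξ : List (Term l)) (x : Fin 4 → E l) (P : Crv l) :
    ((ξ.map (Term.mulN k)).map fun t => t.n * t.bdry x P).sum =
      k * (ξ.map fun t => t.n * t.bdry x P).sum := by
  induction ξ with
  | nil => simp
  | cons t ξ ih =>
    simp only [List.map_cons, List.sum_cons] at ih ⊢
    rw [ih, alg_bdry_mulN]
    simp only [Term.mulN]
    ring

theorem alg_cyc_nil : IsCycle ([] : List (Term l)) := by
  refine ⟨by simp, ∅, Set.finite_empty, fun x _ => ⟨?_, ?_⟩⟩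
  · simp
  · simp

theorem alg_cyc_append {ξ η : List (Term l)} (h : IsCycle ξ) (h' : IsCycle η) :
    IsCycle (ξ ++ η) := by
  obtain ⟨h1, S, hS, h2⟩ := h
  obtain ⟨h1', S', hS', h2'⟩ := h'
  refine ⟨?_, S ∪ S', hS.union hS', ?_⟩
  · intro t ht
    rcases List.mem_append.mp ht with ht | ht
    · exact h1 t ht
    · exact h1' t ht
  · intro x hx
    have hx1 : x ∉ S := fun h => hx (Or.inl h)
    have hx2 : x ∉ S' := fun h => hx (Or.inr h)
    obtain ⟨a1, a2⟩ := h2 x hx1
    obtain ⟨b1, b2⟩ := h2' x hx2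
    have e : (fun P : Crv l => ((ξ ++ η).map fun t => t.n * t.bdry x P).sum) =
        fun P => (ξ.map fun t => t.n * t.bdry x P).sum + (η.map fun t => t.n * t.bdry x P).sum := by
      funext P
      simp
    constructor
    · rw [e]
      exact (a1.union b1).subset (Function.support_add _ _)
    · have e2 : ∑ᶠ P : Crv l, ((ξ ++ η).map fun t => t.n * t.bdry x P).sum =
          ∑ᶠ P : Crv l, ((ξ.map fun t => t.n * t.bdry x P).sum +
            (η.map fun t => t.n * t.bdry x P).sum) := by rw [e]
      rw [e2, finsum_add_distrib a1 b1, a2, b2, add_zero]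

theorem alg_cyc_map {ξ : List (Term l)} (h : IsCycle ξ) (k : ℤ) :
    IsCycle (ξ.map (Term.mulN k)) := by
  obtain ⟨h1, S, hS, h2⟩ := h
  refine ⟨?_, S, hS, ?_⟩
  · intro t ht
    obtain ⟨s, hs, rfl⟩ := List.mem_map.mp ht
    exact h1 s hs
  · intro x hx
    obtain ⟨a1, a2⟩ := h2 x hx
    have e : (fun P : Crv l => ((ξ.map (Term.mulN k)).map fun t => t.n * t.bdry x P).sum) =
        fun P => k * (ξ.map fun t => t.n * t.bdry x P).sum := by
      funext P
      exact alg_sum_map k ξ x P
    constructor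
    · rw [e]
      refine a1.subset ?_
      intro P hP hz
      apply hP
      simp only at hz ⊢
      rw [hz, mul_zero]
    · have e2 : ∑ᶠ P : Crv l, ((ξ.map (Term.mulN k)).map fun t => t.n * t.bdry x P).sum =
          ∑ᶠ P : Crv l, k * (ξ.map fun t => t.n * t.bdry x P).sum := by rw [e]
      rw [e2, ← mul_finsum, a2, mul_zero]

theorem exists_sub (l : ℂ) : ∃ V : Submodule ℝ (Matrix (Fin 6) (Fin 6) ℂ),
    (∀ ξ : List (Term l), IsCycle ξ → reg ξ ∈ V) ∧ ∀ H ∈ V, ∀ ε : ℝ, 0 < ε →
      ∃ (m : ℕ) (ξ : List (Term l)), 0 < m ∧ IsCycle ξ ∧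
        ∀ a b, ‖(m : ℂ)⁻¹ * reg ξ a b - H a b‖ < ε := by
  let V : Submodule ℝ (Matrix (Fin 6) (Fin 6) ℂ) :=
    { carrier := {H | ∀ ε : ℝ, 0 < ε → ∃ (m : ℕ) (ξ : List (Term l)), 0 < m ∧ IsCycle ξ ∧
        ∀ a b, ‖(m : ℂ)⁻¹ * reg ξ a b - H a b‖ < ε}
      zero_mem' := by
        intro ε hε
        refine ⟨1, [], one_pos, alg_cyc_nil, fun a b => ?_⟩
        simp only [reg, List.map_nil, List.sum_nil, Matrix.zero_apply, mul_zero, sub_zero, norm_zero]
        exact hε
      add_mem' := by
        intro H H' hH hH' ε hε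
        obtain ⟨m, ξ, hm, hξ, h⟩ := hH (ε / 2) (by positivity)
        obtain ⟨m', ξ', hm', hξ', h'⟩ := hH' (ε / 2) (by positivity)
        refine ⟨m * m', ξ.map (Term.mulN m') ++ ξ'.map (Term.mulN m), Nat.mul_pos hm hm',
          alg_cyc_append (alg_cyc_map hξ _) (alg_cyc_map hξ' _), fun a b => ?_⟩
        rw [alg_reg_append, alg_reg_map, alg_reg_map]
        have e1 : (m : ℂ) ≠ 0 := by exact_mod_cast hm.ne'
        have e2 : (m' : ℂ) ≠ 0 := by exact_mod_cast hm'.ne'
        have key : ((m * m' : ℕ) : ℂ)⁻¹ * ((((m' : ℤ) : ℂ) • reg ξ + ((m : ℤ) : ℂ) • reg ξ') a b) -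
            (H + H') a b = ((m : ℂ)⁻¹ * reg ξ a b - H a b) + ((m' : ℂ)⁻¹ * reg ξ' a b - H' a b) := by
          simp only [Matrix.add_apply, Matrix.smul_apply, smul_eq_mul]
          push_cast
          field_simp
          ring
        rw [key]
        refine (norm_add_le _ _).trans_lt ?_
        linarith [h a b, h' a b]
      smul_mem' := by
        intro r H hH ε hε
        set B : ℝ := ∑ a, ∑ b, ‖H a b‖ + 1 with hB
        have hBpos : 0 < B := by
          have : 0 ≤ ∑ a, ∑ b, ‖H a b‖ := Finset.sum_nonneg fun a _ =>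
            Finset.sum_nonneg fun b _ => norm_nonneg _
          linarith
        have hle : ∀ a b, ‖H a b‖ + 1 ≤ B := by
          intro a b
          have h1 : ‖H a b‖ ≤ ∑ b, ‖H a b‖ :=
            Finset.single_le_sum (f := fun b => ‖H a b‖) (fun _ _ => norm_nonneg _)
              (Finset.mem_univ b)
          have h2 : ∑ b, ‖H a b‖ ≤ ∑ a, ∑ b, ‖H a b‖ :=
            Finset.single_le_sum (f := fun a => ∑ b, ‖H a b‖)
              (fun _ _ => Finset.sum_nonneg fun _ _ => norm_nonneg _) (Finset.mem_univ a)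
          linarith
        have hr1 : 0 < |r| + 1 := by positivity
        obtain ⟨m, ξ, hm, hξ, h⟩ := hH (min 1 (ε / (2 * (|r| + 1)))) (by positivity)
        obtain ⟨q, hq1, hq2⟩ := exists_rat_btwn (show r < r + ε / (2 * B) by
          have : 0 < ε / (2 * B) := by positivity
          linarith)
        refine ⟨q.den * m, ξ.map (Term.mulN q.num), Nat.mul_pos q.den_pos hm,
          alg_cyc_map hξ _, fun a b => ?_⟩
        rw [alg_reg_map]
        have e1 : (m : ℂ) ≠ 0 := by exact_mod_cast hm.ne'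
        have e2 : (q.den : ℂ) ≠ 0 := by exact_mod_cast q.den_ne_zero
        have hq : ((q : ℝ) : ℂ) = (q.num : ℂ) / (q.den : ℂ) := by
          rw [Complex.ofReal_ratCast]
          exact Rat.cast_def q
        set X : ℂ := (m : ℂ)⁻¹ * reg ξ a b with hX
        have key : ((q.den * m : ℕ) : ℂ)⁻¹ * (((q.num : ℤ) : ℂ) • reg ξ) a b - (r • H) a b =
            ((q : ℝ) - r : ℝ) * X + (r : ℂ) * (X - H a b) := by
          simp only [Matrix.smul_apply, smul_eq_mul, Complex.real_smul]
          rw [Complex.ofReal_sub, hq, hX]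
          push_cast
          field_simp
          ring
        rw [key]
        have hXn : ‖X‖ ≤ B := by
          have h1 := h a b
          have h2 : ‖X‖ ≤ ‖X - H a b‖ + ‖H a b‖ := by
            have := norm_add_le (X - H a b) (H a b)
            rwa [sub_add_cancel] at this
          have h3 := min_le_left (1 : ℝ) (ε / (2 * (|r| + 1)))
          linarith [hle a b]
        have hXH : ‖X - H a b‖ ≤ ε / (2 * (|r| + 1)) := (h a b).le.trans (min_le_right _ _)
        refine (norm_add_le _ _).trans_lt ?_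
        clear_value X
        rw [norm_mul, norm_mul, Complex.norm_real, Complex.norm_real, Real.norm_eq_abs,
          Real.norm_eq_abs]
        have t1 : |(q : ℝ) - r| * ‖X‖ < ε / 2 := by
          have hqr : |(q : ℝ) - r| < ε / (2 * B) := by
            rw [abs_of_pos (by linarith)]
            linarith
          calc |(q : ℝ) - r| * ‖X‖ ≤ |(q : ℝ) - r| * B :=
                mul_le_mul_of_nonneg_left hXn (abs_nonneg _)
            _ < ε / (2 * B) * B := mul_lt_mul_of_pos_right hqr hBpos
            _ = ε / 2 := by field_simp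
        have t2 : |r| * ‖X - H a b‖ ≤ ε / 2 := by
          calc |r| * ‖X - H a b‖ ≤ (|r| + 1) * (ε / (2 * (|r| + 1))) :=
                mul_le_mul (by linarith) hXH (norm_nonneg _) hr1.le
            _ = ε / 2 := by field_simp
        linarith }
  refine ⟨V, ?_, fun H hH => hH⟩
  intro ξ hξ ε hε
  refine ⟨1, ξ, one_pos, hξ, fun a b => ?_⟩
  simp only [Nat.cast_one, inv_one, one_mul, sub_self, norm_zero]
  exact hε

end Pool.Agent.Helper14.EP
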