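import Pool.Agent.Helper14.EP.Defs

/-!
# Auxiliary definitions for the density theorem on `E⁴`
-/

noncomputable section

open Complex MeasureTheory ComplexConjugate

namespace Pool.Agent.Helper14.EP

variable {l : ℂ}

/-- admissible parameters -/
def Good (l : ℂ) : Prop := l ≠ 0 ∧ l ≠ 1 ∧ l ≠ -1

/-- the weight that bounds all integrands -/
def wt (l u : ℂ) : ℝ := (1 + ‖u‖ ^ 2) / ‖pol l u‖

/-- the density of the transcendental `(1,1)`-class -/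
def rho (l u : ℂ) : ℝ := u.re / ‖pol l u‖

/-- `∫ |u|² / |p(u)|` -/
def KK (l : ℂ) : ℝ := ∫ u : ℂ, ‖u‖ ^ 2 / ‖pol l u‖

/-- matrix with given columns -/
def mat (m1 m2 m3 m4 : Fin 4 → ℤ) : Matrix (Fin 4) (Fin 4) ℤ := fun i => ![m1 i, m2 i, m3 i, m4 i]

/-- the bivector `a ∧ b` -/
def w2 (a b : Fin 4 → ℤ) (c : Fin 6) : ℝ := a (pr c).1 * b (pr c).2 - a (pr c).2 * b (pr c).1

/-- constant functions -/
def cst (l : ℂ) (a b : Fin 4 → ℤ) (s : ℝ) : Term l := ⟨1, mat a 0 b 0, 0, (Real.exp s : ℝ), 0, 0, 0⟩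

/-- the function `(u - 1) / (u + 1)` of the first point -/
def sgt (l : ℂ) (m1 m2 m3 : Fin 4 → ℤ) : Term l :=
  ⟨1, mat m1 m2 m3 0, 0, 1, Finsupp.single 1 1 + Finsupp.single (-1) (-1), 0, 0⟩

/-- the divisor `-(1) - (-1)` -/
def fA : ℂ →₀ ℤ := Finsupp.single 1 (-1) + Finsupp.single (-1) (-1)

/-- the parallelogram function `(u - v)² / ((u² - 1)(v² - 1))` -/
def par (l : ℂ) (n : ℤ) (M : Matrix (Fin 4) (Fin 4) ℤ) (τ : Fin 4 → E l) : Term l := ⟨n, M, τ, 1, fA, fA, 2⟩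

/-- `(P, Q) ↦ (P + Q, P - Q)` -/
def M1 : Matrix (Fin 4) (Fin 4) ℤ := !![1, 0, 1, 0; 0, 1, 0, 1; 1, 0, -1, 0; 0, 1, 0, -1]
/-- `(P, Q) ↦ (P + Q, 0)` -/
def M3 : Matrix (Fin 4) (Fin 4) ℤ := !![1, 0, 1, 0; 0, 1, 0, 1; 0, 0, 0, 0; 0, 0, 0, 0]
/-- `(P, Q) ↦ (0, P + Q)` -/
def M4 : Matrix (Fin 4) (Fin 4) ℤ := !![0, 0, 0, 0; 0, 0, 0, 0; 1, 0, 1, 0; 0, 1, 0, 1]

/-- the cycle `Ξ` -/
def Xi (l : ℂ) : List (Term l) :=
  [par l 1 M1 0, par l 2 1 (fun _ => pt l 1 0), par l (-1) M3 0, par l (-1) M4 0]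

/-- contraction with the wedge pairing -/
def trJ (H : Matrix (Fin 6) (Fin 6) ℂ) : ℝ := (H 0 5).re - (H 1 4).re + (H 2 3).re

end Pool.Agent.Helper14.EP
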