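import Pool.Agent.Helper14.EP.Base

/-!
# EP, module CYC: the chains are cycles
-/

noncomputable section

open Complex MeasureTheory ComplexConjugate

namespace Pool.Agent.Helper14.EP

variable {l : ℂ}

/-! ### points -/

open Classical in
lemma cyc_pt_neg (l x y : ℂ) : pt l x (-y) = -pt l x y := by
  have h1 : (W l).negY x y = -y := by
    simp [WeierstrassCurve.Affine.negY, W]
  have h2 : (W l).Nonsingular x (-y) ↔ (W l).Nonsingular x y := by
    rw [← h1]
    exact WeierstrassCurve.Affine.nonsingular_neg x y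
  unfold pt
  by_cases h : (W l).Nonsingular x y
  · rw [dif_pos h, dif_pos (h2.mpr h), WeierstrassCurve.Affine.Point.neg_some]
    congr 1
    exact h1.symm
  · rw [dif_neg h, dif_neg (fun h' => h (h2.mp h'))]
    rfl

/-- the point `(1, 0)` -/
def cyc_T (l : ℂ) : E l := pt l 1 0

open Classical in
lemma cyc_T_neg (l : ℂ) : -cyc_T l = cyc_T l := by
  have := cyc_pt_neg l 1 0
  rw [neg_zero] at this
  exact this.symm

open Classical in
lemma cyc_T_add (l : ℂ) : cyc_T l + cyc_T l = 0 := by
  nth_rewrite 1 [← cyc_T_neg]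
  exact neg_add_cancel _

lemma cyc_above_y {u : ℂ} (h : pol l u = 0) : (above l u).y = 0 := by
  simp only [above, h]
  exact Complex.zero_cpow (by norm_num)

lemma cyc_pol_one (l : ℂ) : pol l 1 = 0 := by simp [pol]

lemma cyc_pol_neg (l : ℂ) : pol l (-1) = 0 := by simp [pol]

lemma cyc_f1_inv (P : Crv l) : f1 P.inv = by classical exact -f1 P :=
  cyc_pt_neg _ _ _

open Classical in
lemma cyc_f2_inv (P : Crv l) : f2 P.inv = -f2 P := by
  unfold f2
  by_cases h : P.u = 0
  · have h' : P.inv.u = 0 := h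
    rw [if_pos h, if_pos h']
    exact neg_zero.symm
  · have h' : ¬ P.inv.u = 0 := h
    rw [if_neg h, if_neg h', ← cyc_pt_neg]
    congr 1
    simp only [Crv.inv]
    ring

lemma cyc_f1_T {P : Crv l} (h : P.u ^ 2 = 1) (hy : P.y = 0) : f1 P = cyc_T l := by
  rw [f1, h, hy]
  rfl

lemma cyc_f2_T {P : Crv l} (h : P.u ^ 2 = 1) (hy : P.y = 0) : f2 P = cyc_T l := by
  have h0 : P.u ≠ 0 := by
    intro h0
    rw [h0] at h
    norm_num at h
  rw [f2, if_neg h0, h, hy]
  simp [cyc_T]

/-- the points over `1` and `-1` -/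
lemma cyc_above {a : ℂ} (ha : a = 1 ∨ a = -1) : f1 (above l a) = cyc_T l ∧
    f2 (above l a) = cyc_T l ∧ f1 (above l a).inv = cyc_T l ∧ f2 (above l a).inv = cyc_T l := by
  have h1 : (above l a).u ^ 2 = 1 := by
    rcases ha with rfl | rfl <;> simp [above]
  have h2 : (above l a).y = 0 := by
    rcases ha with rfl | rfl
    · exact cyc_above_y (cyc_pol_one l)
    · exact cyc_above_y (cyc_pol_neg l)
  have h3 : (above l a).inv.u ^ 2 = 1 := h1
  have h4 : (above l a).inv.y = 0 := by
    simp only [Crv.inv]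
    rw [h2, neg_zero]
  exact ⟨cyc_f1_T h1 h2, cyc_f2_T h1 h2, cyc_f1_T h3 h4, cyc_f2_T h3 h4⟩

open Classical in
/-- the map in terms of the points -/
def cyc_m (t : Term l) (a b c d : E l) : Fin 4 → E l := fun i =>
  t.M i 0 • a + t.M i 1 • b + t.M i 2 • c + t.M i 3 • d + t.τ i

lemma cyc_map (t : Term l) (P Q : Crv l) : t.map P Q = cyc_m t (f1 P) (f2 P) (f1 Q) (f2 Q) := rfl

/-! ### constant functions -/

theorem cyc_cst (a b : Fin 4 → ℤ) (s : ℝ) : IsCycle [cst l a b s] := by
  refine ⟨?_, ∅, Set.finite_empty, fun x _ => ?_⟩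
  · intro t ht
    rw [List.mem_singleton] at ht
    subst ht
    refine ⟨?_, ?_, ?_⟩
    · simp only [cst]
      exact_mod_cast (Real.exp_pos s).ne'
    · simp [cst]
    · simp [cst]
  · have h : (fun P : Crv l => (([cst l a b s]).map fun t => t.n * t.bdry x P).sum) =
        fun _ => 0 := by
      funext P
      simp [cst, Term.bdry]
    constructor
    · rw [h]
      simp
    · rw [h]
      simp

/-! ### the second kind -/

lemma cyc_sum_fA (g : ℂ → ℤ) : (fA.sum fun a n => n * g a) = -g 1 - g (-1) := by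
  unfold fA
  rw [Finsupp.sum_add_index' (by simp) (by intro a b1 b2; ring), Finsupp.sum_single_index (by simp),
    Finsupp.sum_single_index (by simp)]
  ring

theorem cyc_sgt (m1 m2 m3 : Fin 4 → ℤ) : IsCycle [sgt l m1 m2 m3] := by
  have hs : ∀ g : ℂ → ℤ, ((Finsupp.single (1 : ℂ) (1 : ℤ) + Finsupp.single (-1) (-1)).sum
      fun a n => n * g a) = g 1 - g (-1) := by
    intro g
    rw [Finsupp.sum_add_index' (by simp) (by intro a b1 b2; ring),
      Finsupp.sum_single_index (by simp), Finsupp.sum_single_index (by simp)]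
    ring
  refine ⟨?_, ∅, Set.finite_empty, fun x _ => ?_⟩
  · intro t ht
    rw [List.mem_singleton] at ht
    subst ht
    refine ⟨?_, ?_, ?_⟩
    · simp [sgt]
    · have := hs fun _ => 1
      simp only [mul_one, sub_self] at this
      simp only [sgt, this, add_zero]
    · simp [sgt]
  · have h : (fun P : Crv l => (([sgt l m1 m2 m3]).map fun t => t.n * t.bdry x P).sum) =
        fun _ => 0 := by
      funext P
      have h1 := cyc_above (l := l) (a := 1) (Or.inl rfl)
      have h2 := cyc_above (l := l) (a := -1) (Or.inr rfl)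
      have h3 : (sgt l m1 m2 m3).bdry x P = 0 := by
        unfold Term.bdry
        have h4 : (sgt l m1 m2 m3).A = Finsupp.single (1 : ℂ) (1 : ℤ) + Finsupp.single (-1) (-1) :=
          rfl
        rw [h4, hs]
        have h5 : (sgt l m1 m2 m3).B = 0 := rfl
        have h6 : (sgt l m1 m2 m3).k = 0 := rfl
        rw [h5, h6, Finsupp.sum_zero_index]
        simp only [cyc_map, h1.1, h1.2.1, h1.2.2.1, h1.2.2.2, h2.1, h2.2.1, h2.2.2.1, h2.2.2.2]
        ring
      simp [h3]
    constructor
    · rw [h]
      simp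
    · rw [h]
      simp

/-! ### the cycle `Ξ` -/

open Classical in
lemma cyc_bdry (n : ℤ) (M : Matrix (Fin 4) (Fin 4) ℤ) (τ : Fin 4 → E l) (x : Fin 4 → E l)
    (P : Crv l) : (par l n M τ).bdry x P =
      -4 * ind x (cyc_m (par l n M τ) (cyc_T l) (cyc_T l) (f1 P) (f2 P)) +
      -4 * ind x (cyc_m (par l n M τ) (f1 P) (f2 P) (cyc_T l) (cyc_T l)) +
      2 * (ind x (cyc_m (par l n M τ) (f1 P) (f2 P) (f1 P) (f2 P)) +
        ind x (cyc_m (par l n M τ) (f1 P) (f2 P) (-f1 P) (-f2 P))) := by
  have h1 := cyc_above (l := l) (a := 1) (Or.inl rfl)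
  have h2 := cyc_above (l := l) (a := -1) (Or.inr rfl)
  unfold Term.bdry
  have h4 : (par l n M τ).A = fA := rfl
  have h5 : (par l n M τ).B = fA := rfl
  have h6 : (par l n M τ).k = 2 := rfl
  rw [h4, h5, h6, cyc_sum_fA, cyc_sum_fA]
  simp only [cyc_map, h1.1, h1.2.1, h1.2.2.1, h1.2.2.2, h2.1, h2.2.1, h2.2.2.1, h2.2.2.2,
    cyc_f1_inv, cyc_f2_inv]
  ring

theorem cyc_Xi : IsCycle (Xi l) := by
  classical
  refine ⟨?_, {0}, Set.finite_singleton _, fun x hx => ?_⟩
  · intro t ht
    have key : ∀ (n : ℤ) (M : Matrix (Fin 4) (Fin 4) ℤ) (τ : Fin 4 → E l),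
        (par l n M τ).Valid := by
      intro n M τ
      have := cyc_sum_fA fun _ => 1
      simp only [mul_one] at this
      refine ⟨?_, ?_, ?_⟩
      · simp [par]
      · simp only [par, this]
        norm_num
      · simp only [par, this]
        norm_num
    simp only [Xi, List.mem_cons, List.not_mem_nil, or_false] at ht
    rcases ht with rfl | rfl | rfl | rfl <;> exact key _ _ _
  · have h0 : ind x 0 = 0 := by
      unfold ind
      rw [if_neg]
      rintro rfl
      exact hx rfl
    have h : (fun P : Crv l => ((Xi l).map fun t => t.n * t.bdry x P).sum) = fun _ => 0 := by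
      funext P
      simp only [Xi, List.map_cons, List.map_nil, List.sum_cons, List.sum_nil, cyc_bdry]
      generalize f1 P = p
      generalize f2 P = q
      have hT := cyc_T_add l
      have hT' := cyc_T_neg l
      set T := cyc_T l with hTdef
      have hTpt : (fun _ : Fin 4 => pt l 1 0) = fun _ : Fin 4 => T := rfl
      rw [hTpt]
      have a1 : cyc_m (par l 1 M1 0) T T p q = ![p + T, q + T, -(p + T), -(q + T)] := by
        funext i; fin_cases i <;> simp [cyc_m, par, M1, M3, M4, hT', hT, add_comm]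
      have a2 : cyc_m (par l 1 M1 0) p q T T = ![p + T, q + T, p + T, q + T] := by
        funext i; fin_cases i <;> simp [cyc_m, par, M1, M3, M4, hT', hT, add_comm]
      have a3 : cyc_m (par l 1 M1 0) p q p q = ![p + p, q + q, 0, 0] := by
        funext i; fin_cases i <;> simp [cyc_m, par, M1, M3, M4, hT', hT, add_comm]
      have a4 : cyc_m (par l 1 M1 0) p q (-p) (-q) = ![0, 0, p + p, q + q] := by
        funext i; fin_cases i <;> simp [cyc_m, par, M1, M3, M4, hT', hT, add_comm]
      have b1 : cyc_m (par l 2 1 (fun _ => T)) T T p q = ![0, 0, p + T, q + T] := by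
        funext i; fin_cases i <;> simp [cyc_m, par, M1, M3, M4, hT', hT, add_comm]
      have b2 : cyc_m (par l 2 1 (fun _ => T)) p q T T = ![p + T, q + T, 0, 0] := by
        funext i; fin_cases i <;> simp [cyc_m, par, M1, M3, M4, hT', hT, add_comm]
      have b3 : cyc_m (par l 2 1 (fun _ => T)) p q p q = ![p + T, q + T, p + T, q + T] := by
        funext i; fin_cases i <;> simp [cyc_m, par, M1, M3, M4, hT', hT, add_comm]
      have b4 : cyc_m (par l 2 1 (fun _ => T)) p q (-p) (-q) =
          ![p + T, q + T, -(p + T), -(q + T)] := by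
        funext i; fin_cases i <;> simp [cyc_m, par, M1, M3, M4, hT', hT, add_comm]
      have c1 : cyc_m (par l (-1) M3 0) T T p q = ![p + T, q + T, 0, 0] := by
        funext i; fin_cases i <;> simp [cyc_m, par, M1, M3, M4, hT', hT, add_comm]
      have c2 : cyc_m (par l (-1) M3 0) p q T T = ![p + T, q + T, 0, 0] := by
        funext i; fin_cases i <;> simp [cyc_m, par, M1, M3, M4, hT', hT, add_comm]
      have c3 : cyc_m (par l (-1) M3 0) p q p q = ![p + p, q + q, 0, 0] := by
        funext i; fin_cases i <;> simp [cyc_m, par, M1, M3, M4, hT', hT, add_comm]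
      have c4 : cyc_m (par l (-1) M3 0) p q (-p) (-q) = 0 := by
        funext i; fin_cases i <;> simp [cyc_m, par, M1, M3, M4, hT', hT, add_comm]
      have d1 : cyc_m (par l (-1) M4 0) T T p q = ![0, 0, p + T, q + T] := by
        funext i; fin_cases i <;> simp [cyc_m, par, M1, M3, M4, hT', hT, add_comm]
      have d2 : cyc_m (par l (-1) M4 0) p q T T = ![0, 0, p + T, q + T] := by
        funext i; fin_cases i <;> simp [cyc_m, par, M1, M3, M4, hT', hT, add_comm]
      have d3 : cyc_m (par l (-1) M4 0) p q p q = ![0, 0, p + p, q + q] := by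
        funext i; fin_cases i <;> simp [cyc_m, par, M1, M3, M4, hT', hT, add_comm]
      have d4 : cyc_m (par l (-1) M4 0) p q (-p) (-q) = 0 := by
        funext i; fin_cases i <;> simp [cyc_m, par, M1, M3, M4, hT', hT, add_comm]
      rw [a1, a2, a3, a4, b1, b2, b3, b4, c1, c2, c3, c4, d1, d2, d3, d4, h0]
      simp only [par]
      ring
    constructor
    · rw [h]
      simp
    · rw [h]
      simp

end Pool.Agent.Helper14.EP
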