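import Mathlib

/-!
# Surfaces with functions on the fourth power of an elliptic curve

* `E l : Y² = (X - 1)(X - l)(X - l⁻¹)`, `l ≠ 0, 1, -1`; every complex elliptic curve is of this form
  (the cross-ratio of the branch points `1, l, l⁻¹, ∞` is `-l`).
* `Crv l` is the affine part `y² = p(u)`, `p(u) = (u² - 1)(u² - l)(u² - l⁻¹)`, of the curve `C` of
  genus two, which has two morphisms `f1 = (u², y)` and `f2 = (u⁻², i y / u³)` to `E l`.
* A `Term` is `n` times the push-forward to `X = E⁴` of a rational function on the surface `C × C`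
  along a morphism `C × C → X`; an element of `CH³(X, 1) = H⁵_M(X, ℚ(3))` is a sum of terms whose
  boundary, the sum of the divisors of the functions pushed forward to `X`, is zero.
-/

noncomputable section

open Complex MeasureTheory ComplexConjugate

namespace Pool.Agent.Helper14.EP

/-- The curve `E : Y² = (X - 1)(X - l)(X - l⁻¹) = X³ - s X² + s X - 1`, `s = 1 + l + l⁻¹`. -/
def W (l : ℂ) : WeierstrassCurve.Affine ℂ := ⟨0, -(1 + l + l⁻¹), 0, 1 + l + l⁻¹, -1⟩

/-- The group of points of `E`. -/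
abbrev E (l : ℂ) : Type := (W l).Point

open Classical in
/-- The point `(x, y)` of `E` (and `0` if `(x, y)` does not lie on `E`). -/
def pt (l x y : ℂ) : E l := if h : (W l).Nonsingular x y then .some x y h else 0

/-- `p(u) = (u² - 1)(u² - l)(u² - l⁻¹)`. -/
def pol (l u : ℂ) : ℂ := (u ^ 2 - 1) * (u ^ 2 - l) * (u ^ 2 - l⁻¹)

/-- The affine points `(u, y)`, `y² = p(u)`, of the curve `C` of genus two. -/
@[ext] structure Crv (l : ℂ) where
  /-- the coordinate `u` -/
  u : ℂ
  /-- the coordinate `y` -/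
  y : ℂ
  /-- the equation -/
  h : y ^ 2 = pol l u

/-- The hyperelliptic involution `(u, y) ↦ (u, -y)`. -/
def Crv.inv {l : ℂ} (P : Crv l) : Crv l := ⟨P.u, -P.y, by rw [neg_sq, P.h]⟩

/-- A point of `C` with given coordinate `u`; the other one is `(above l u).inv`. -/
def above (l u : ℂ) : Crv l := ⟨u, pol l u ^ (2⁻¹ : ℂ), by
  rw [← Complex.cpow_nat_mul]; norm_num⟩

/-- The first morphism `C → E`, `(u, y) ↦ (u², y)`. -/
def f1 {l : ℂ} (P : Crv l) : E l := pt l (P.u ^ 2) P.y

open Classical in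
/-- The second morphism `C → E`, `(u, y) ↦ (u⁻², i y / u³)`; it maps `u = 0` to `0`. -/
def f2 {l : ℂ} (P : Crv l) : E l :=
  if P.u = 0 then 0 else pt l ((P.u ^ 2)⁻¹) (I * P.y / P.u ^ 3)

/-- `n` times the push-forward of the function
`f(P, Q) = c ∏_a (u(P) - a)^(A a) ∏_b (u(Q) - b)^(B b) (u(P) - u(Q))^k` on `C × C` along
`(P, Q) ↦ M (f1 P, f2 P, f1 Q, f2 Q) + τ` to `E⁴`. -/
structure Term (l : ℂ) where
  /-- the multiplicity -/
  n : ℤ
  /-- the matrix of the morphism -/
  M : Matrix (Fin 4) (Fin 4) ℤ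
  /-- the translation -/
  τ : Fin 4 → E l
  /-- the constant of the function -/
  c : ℂ
  /-- exponents of the factors `u(P) - a` -/
  A : ℂ →₀ ℤ
  /-- exponents of the factors `u(Q) - b` -/
  B : ℂ →₀ ℤ
  /-- exponent of the factor `u(P) - u(Q)` -/
  k : ℤ

variable {l : ℂ}

/-- `f` is not zero, and it has no zero or pole along `u(P) = ∞` and `u(Q) = ∞`. -/
def Term.Valid (t : Term l) : Prop :=
  t.c ≠ 0 ∧ (t.A.sum fun _ n => n) + t.k = 0 ∧ (t.B.sum fun _ n => n) + t.k = 0

open Classical in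
/-- The morphism `C × C → E⁴`. -/
def Term.map (t : Term l) (P Q : Crv l) : Fin 4 → E l := fun i =>
  t.M i 0 • f1 P + t.M i 1 • f2 P + t.M i 2 • f1 Q + t.M i 3 • f2 Q + t.τ i

/-- The function `log |f|` in terms of `z = (u(P), u(Q))`. -/
def Term.lg (t : Term l) (z : ℂ × ℂ) : ℝ :=
  Real.log ‖t.c‖ + (t.A.sum fun a n => (n : ℝ) * Real.log ‖z.1 - a‖)
    + (t.B.sum fun b n => (n : ℝ) * Real.log ‖z.2 - b‖) + (t.k : ℝ) * Real.log ‖z.1 - z.2‖

/-- `1` if the point is `x`, and `0` otherwise. -/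
def ind (x y : Fin 4 → E l) : ℤ := by
  classical exact if y = x then 1 else 0

/-- The contribution of the point `P` of `C` to the multiplicity of `x` in the push-forward of the
divisor of `f`, whose components are the curves `{P'} × C`, `C × {P'}`, the diagonal and the graph of
the involution, each parametrised by `C`. -/
def Term.bdry (t : Term l) (x : Fin 4 → E l) (P : Crv l) : ℤ :=
  (t.A.sum fun a n => n * (ind x (t.map (above l a) P) + ind x (t.map (above l a).inv P)))
    + (t.B.sum fun b n => n * (ind x (t.map P (above l b)) + ind x (t.map P (above l b).inv)))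
    + t.k * (ind x (t.map P P) + ind x (t.map P P.inv))

/-- The boundary of the chain is zero: outside a finite set of points `x` of `E⁴` the multiplicity
of `x` in the boundary, a sum over the points of `C`, is zero. -/
def IsCycle (ξ : List (Term l)) : Prop :=
  (∀ t ∈ ξ, t.Valid) ∧ ∃ S : Set (Fin 4 → E l), S.Finite ∧ ∀ x ∉ S,
    (Function.support fun P => (ξ.map fun t => t.n * t.bdry x P).sum).Finite ∧
      ∑ᶠ P : Crv l, (ξ.map fun t => t.n * t.bdry x P).sum = 0

/-- The six pairs `i < j` of coordinates. -/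
def pr : Fin 6 → Fin 4 × Fin 4 := ![(0, 1), (0, 2), (0, 3), (1, 2), (1, 3), (2, 3)]

/-- The pull-back of the form `dX_i / Y_i` is `cA du / y(P) + cB dv / y(Q)`. -/
def cA (M : Matrix (Fin 4) (Fin 4) ℤ) (u : ℂ) (i : Fin 4) : ℂ := 2 * u * M i 0 + 2 * I * M i 1

/-- The pull-back of the form `dX_i / Y_i` is `cA du / y(P) + cB dv / y(Q)`. -/
def cB (M : Matrix (Fin 4) (Fin 4) ℤ) (v : ℂ) (i : Fin 4) : ℂ := 2 * v * M i 2 + 2 * I * M i 3

/-- The pull-back of `ω_a = dX_i / Y_i ∧ dX_j / Y_j`, `pr a = (i, j)`, to `C × C` is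
`wed M a (u, v) du ∧ dv / (y(P) y(Q))`. -/
def wed (M : Matrix (Fin 4) (Fin 4) ℤ) (a : Fin 6) (z : ℂ × ℂ) : ℂ :=
  cA M z.1 (pr a).1 * cB M z.2 (pr a).2 - cA M z.1 (pr a).2 * cB M z.2 (pr a).1

/-- The regulator of a term at the classes `ω_a ∧ conj ω_b` (up to the factor `16`): the integral
of `log |f|` times the pull-back of the class over `C × C`. -/
def Term.reg (t : Term l) : Matrix (Fin 6) (Fin 6) ℂ := fun a b =>
  (t.n : ℂ) * ∫ z : ℂ × ℂ, ((t.lg z / (‖pol l z.1‖ * ‖pol l z.2‖) : ℝ) : ℂ)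
    * (wed t.M a z * conj (wed t.M b z))

/-- The regulator of a chain. -/
def reg (ξ : List (Term l)) : Matrix (Fin 6) (Fin 6) ℂ := (ξ.map Term.reg).sum

end Pool.Agent.Helper14.EP
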