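import Mathlib

/-!
# The logarithmic energy of a density with integral zero is negative
-/

noncomputable section

open Complex MeasureTheory Set Filter Topology

namespace Pool.Agent.Helper14.EP

/-! ### Frullani integrals -/

theorem ENE_frul {a b : ℝ} (ha : 0 < a) (hab : a ≤ b) :
    IntegrableOn (fun t : ℝ => (Real.exp (-(t * a)) - Real.exp (-(t * b))) / t) (Ioi 0) ∧
      ∫ t in Ioi (0 : ℝ), (Real.exp (-(t * a)) - Real.exp (-(t * b))) / t
        = Real.log b - Real.log a := by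
  have hint : ∀ s : ℝ, 0 < s → Integrable (fun t : ℝ => Real.exp (-(t * s)))
      (volume.restrict (Ioi 0)) := by
    intro s hs
    have := integrableOn_exp_mul_Ioi (a := -s) (by linarith) 0
    refine this.congr_fun (fun t _ => ?_) measurableSet_Ioi
    show Real.exp (-s * t) = Real.exp (-(t * s))
    ring_nf
  have hval : ∀ s : ℝ, 0 < s → ∫ t in Ioi (0 : ℝ), Real.exp (-(t * s)) = s⁻¹ := by
    intro s hs
    have := integral_exp_mul_Ioi (a := -s) (by linarith) 0
    calc ∫ t in Ioi (0 : ℝ), Real.exp (-(t * s)) = ∫ t in Ioi (0 : ℝ), Real.exp (-s * t) := by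
          refine setIntegral_congr_fun measurableSet_Ioi fun t _ => ?_
          show Real.exp (-(t * s)) = Real.exp (-s * t)
          ring_nf
      _ = s⁻¹ := by rw [this]; simp
  have hF : Integrable (Function.uncurry fun t s : ℝ => Real.exp (-(t * s)))
      ((volume.restrict (Ioi 0)).prod (volume.restrict (Ioc a b))) := by
    rw [integrable_prod_iff']
    · refine ⟨?_, ?_⟩
      · refine (ae_restrict_iff' measurableSet_Ioc).2 (Eventually.of_forall fun s hs => ?_)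
        exact hint s (ha.trans hs.1)
      · have h1 : IntegrableOn (fun s : ℝ => s⁻¹) (Ioc a b) := by
          have : ContinuousOn (fun s : ℝ => s⁻¹) (Icc a b) :=
            continuousOn_inv₀.mono fun s hs => (ha.trans_le hs.1).ne'
          exact (this.integrableOn_Icc).mono_set Ioc_subset_Icc_self
        refine h1.congr_fun (fun s hs => ?_) measurableSet_Ioc
        show s⁻¹ = ∫ t in Ioi (0 : ℝ), ‖Real.exp (-(t * s))‖
        simp only [Real.norm_eq_abs, Real.abs_exp]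
        rw [hval s (ha.trans hs.1)]
    · exact (by fun_prop : Continuous (Function.uncurry fun t s : ℝ => Real.exp (-(t * s)))).aestronglyMeasurable
  have hs : ∀ t : ℝ, 0 < t → ∫ s in Ioc a b, Real.exp (-(t * s))
      = (Real.exp (-(t * a)) - Real.exp (-(t * b))) / t := by
    intro t ht
    rw [← intervalIntegral.integral_of_le hab]
    have h2 : ∀ s ∈ uIcc a b, HasDerivAt (fun s : ℝ => -(Real.exp (-(t * s)) / t))
        (Real.exp (-(t * s))) s := by
      intro s _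
      have h3 : HasDerivAt (fun s : ℝ => -(t * s)) (-t) s := by
        simpa using ((hasDerivAt_id' s).const_mul t).fun_neg
      have h4 := ((h3.exp).div_const t).fun_neg
      refine h4.congr_deriv ?_
      field_simp
    rw [intervalIntegral.integral_eq_sub_of_hasDerivAt h2
      ((by fun_prop : Continuous fun s : ℝ => Real.exp (-(t * s))).intervalIntegrable _ _)]
    ring
  constructor
  · refine (hF.integral_prod_left).congr ?_
    refine (ae_restrict_iff' measurableSet_Ioi).2 (Eventually.of_forall fun t ht => ?_)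
    exact hs t ht
  · calc ∫ t in Ioi (0 : ℝ), (Real.exp (-(t * a)) - Real.exp (-(t * b))) / t
        = ∫ t in Ioi (0 : ℝ), ∫ s in Ioc a b, Real.exp (-(t * s)) :=
          setIntegral_congr_fun measurableSet_Ioi fun t ht => (hs t ht).symm
      _ = ∫ s in Ioc a b, ∫ t in Ioi (0 : ℝ), Real.exp (-(t * s)) := integral_integral_swap hF
      _ = ∫ s in Ioc a b, s⁻¹ :=
          setIntegral_congr_fun measurableSet_Ioc fun s hs => hval s (ha.trans hs.1)
      _ = Real.log b - Real.log a := by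
          rw [← intervalIntegral.integral_of_le hab, integral_inv_of_pos ha (ha.trans_le hab),
            Real.log_div (ha.trans_le hab).ne' ha.ne']

/-- the integrand of the Frullani integral of `log r` -/
def ENEk (r t : ℝ) : ℝ := (Real.exp (-t) - Real.exp (-(t * r))) / t

theorem ENE_k {r : ℝ} (hr : 0 < r) : IntegrableOn (ENEk r) (Ioi 0) ∧
    ∫ t in Ioi (0 : ℝ), ENEk r t = Real.log r ∧
    ∫ t in Ioi (0 : ℝ), ‖ENEk r t‖ = |Real.log r| := by
  rcases le_total 1 r with h | h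
  · obtain ⟨h1, h2⟩ := ENE_frul one_pos h
    simp only [mul_one, Real.log_one, sub_zero] at h1 h2
    refine ⟨h1, h2, ?_⟩
    rw [abs_of_nonneg (Real.log_nonneg h), ← h2]
    refine setIntegral_congr_fun measurableSet_Ioi fun t ht => ?_
    have ht' : (0 : ℝ) < t := ht
    show ‖ENEk r t‖ = ENEk r t
    rw [Real.norm_of_nonneg]
    refine div_nonneg (sub_nonneg.2 (Real.exp_le_exp.2 ?_)) ht'.le
    nlinarith
  · obtain ⟨h1, h2⟩ := ENE_frul hr h
    simp only [mul_one, Real.log_one, zero_sub] at h1 h2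
    have h3 : ∀ t, ENEk r t = -((Real.exp (-(t * r)) - Real.exp (-t)) / t) := by
      intro t; unfold ENEk; ring
    refine ⟨?_, ?_, ?_⟩
    · exact (h1.neg).congr_fun (fun t _ => (h3 t).symm) measurableSet_Ioi
    · calc ∫ t in Ioi (0 : ℝ), ENEk r t
          = ∫ t in Ioi (0 : ℝ), -((Real.exp (-(t * r)) - Real.exp (-t)) / t) :=
            setIntegral_congr_fun measurableSet_Ioi fun t _ => h3 t
        _ = Real.log r := by rw [integral_neg, h2, neg_neg]
    · rw [abs_of_nonpos (Real.log_nonpos hr.le h), ← h2]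
      refine setIntegral_congr_fun measurableSet_Ioi fun t ht => ?_
      have ht' : (0 : ℝ) < t := ht
      show ‖ENEk r t‖ = _
      rw [h3, norm_neg, Real.norm_of_nonneg]
      refine div_nonneg (sub_nonneg.2 (Real.exp_le_exp.2 ?_)) ht'.le
      nlinarith

/-! ### Gaussians -/

theorem ENE_gauss {t : ℝ} (ht : 0 < t) :
    Integrable (fun s : ℂ => Real.exp (-(t * ‖s‖ ^ 2))) ∧
      ∫ s : ℂ, Real.exp (-(t * ‖s‖ ^ 2)) = Real.pi / t := by
  have h := GaussianFourier.integral_rexp_neg_mul_sq_norm (V := ℂ) ht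
  have h1 : ∫ s : ℂ, Real.exp (-(t * ‖s‖ ^ 2)) = Real.pi / t := by
    calc ∫ s : ℂ, Real.exp (-(t * ‖s‖ ^ 2)) = ∫ s : ℂ, Real.exp (-t * ‖s‖ ^ 2) := by
          congr 1; ext s; ring_nf
      _ = Real.pi / t := by rw [h]; simp [Complex.finrank_real_complex]
  refine ⟨?_, h1⟩
  by_contra hcon
  rw [integral_undef hcon] at h1
  have := div_pos Real.pi_pos ht
  linarith

theorem ENE_para (t : ℝ) (u v s : ℂ) :
    Real.exp (-(2 * t * ‖u - s‖ ^ 2)) * Real.exp (-(2 * t * ‖v - s‖ ^ 2))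
      = Real.exp (-(t * ‖u - v‖ ^ 2)) * Real.exp (-(4 * t * ‖s - (u + v) / 2‖ ^ 2)) := by
  rw [← Real.exp_add, ← Real.exp_add]
  congr 1
  have h : ∀ z : ℂ, ‖z‖ ^ 2 = z.re ^ 2 + z.im ^ 2 := by
    intro z; rw [← Complex.normSq_eq_norm_sq, Complex.normSq_apply]; ring
  simp only [h, Complex.sub_re, Complex.sub_im, Complex.add_re, Complex.add_im,
    Complex.div_ofNat_re, Complex.div_ofNat_im]
  ring

theorem ENE_int (t : ℝ) (ht : 0 < t) (u v : ℂ) :
    Integrable (fun s : ℂ => Real.exp (-(2 * t * ‖u - s‖ ^ 2)) * Real.exp (-(2 * t * ‖v - s‖ ^ 2))) ∧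
    ∫ s : ℂ, Real.exp (-(2 * t * ‖u - s‖ ^ 2)) * Real.exp (-(2 * t * ‖v - s‖ ^ 2))
      = Real.pi / (4 * t) * Real.exp (-(t * ‖u - v‖ ^ 2)) := by
  have h := ENE_gauss (t := 4 * t) (by linarith)
  simp_rw [ENE_para]
  constructor
  · exact (h.1.comp_sub_right ((u + v) / 2)).const_mul _
  · rw [integral_const_mul, integral_sub_right_eq_self
      (fun s : ℂ => Real.exp (-(4 * t * ‖s‖ ^ 2))) ((u + v) / 2), h.2, mul_comm]

/-- convolution with a Gaussian -/
def ENEH (ρ : ℂ → ℝ) (t : ℝ) (s : ℂ) : ℝ := ∫ u : ℂ, Real.exp (-(2 * t * ‖u - s‖ ^ 2)) * ρ u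

/-- the energy for a Gaussian -/
def ENEG (ρ : ℂ → ℝ) (t : ℝ) : ℝ :=
  ∫ z : ℂ × ℂ, Real.exp (-(t * ‖z.1 - z.2‖ ^ 2)) * (ρ z.1 * ρ z.2)

theorem ENE_bdd {ρ : ℂ → ℝ} (hi : Integrable ρ) {t : ℝ} (ht : 0 < t) :
    Integrable fun z : ℂ × ℂ => Real.exp (-(t * ‖z.1 - z.2‖ ^ 2)) * (ρ z.1 * ρ z.2) := by
  refine (hi.mul_prod hi).bdd_mul (c := 1) ?_ ?_
  · exact (by fun_prop : Continuous fun z : ℂ × ℂ =>
      Real.exp (-(t * ‖z.1 - z.2‖ ^ 2))).aestronglyMeasurable
  · refine Eventually.of_forall fun z => ?_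
    rw [Real.norm_eq_abs, Real.abs_exp]
    exact Real.exp_le_one_iff.2 (neg_nonpos.2 (by positivity))

theorem ENE_G {ρ : ℂ → ℝ} (hi : Integrable ρ) {t : ℝ} (ht : 0 < t) :
    Integrable (fun s => ENEH ρ t s ^ 2) ∧
      ENEG ρ t = 4 * t / Real.pi * ∫ s, ENEH ρ t s ^ 2 := by
  set Φ : ℂ × ℂ → ℂ → ℝ := fun z s =>
    Real.exp (-(2 * t * ‖z.1 - s‖ ^ 2)) * Real.exp (-(2 * t * ‖z.2 - s‖ ^ 2)) *
      (ρ z.1 * ρ z.2) with hΦ
  have hmeas : AEStronglyMeasurable (Function.uncurry Φ)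
      ((volume : Measure (ℂ × ℂ)).prod (volume : Measure ℂ)) := by
    have h1 : AEStronglyMeasurable (fun p : (ℂ × ℂ) × ℂ => ρ p.1.1 * ρ p.1.2)
        ((volume : Measure (ℂ × ℂ)).prod (volume : Measure ℂ)) :=
      ((hi.mul_prod hi).aestronglyMeasurable).comp_fst
    have h2 : Continuous fun p : (ℂ × ℂ) × ℂ =>
        Real.exp (-(2 * t * ‖p.1.1 - p.2‖ ^ 2)) * Real.exp (-(2 * t * ‖p.1.2 - p.2‖ ^ 2)) := by
      fun_prop
    exact h2.aestronglyMeasurable.mul h1
  have hint : Integrable (Function.uncurry Φ)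
      ((volume : Measure (ℂ × ℂ)).prod (volume : Measure ℂ)) := by
    rw [integrable_prod_iff hmeas]
    constructor
    · exact Eventually.of_forall fun z => (ENE_int t ht z.1 z.2).1.mul_const (ρ z.1 * ρ z.2)
    · have h1 : ∀ z : ℂ × ℂ, ∫ s, ‖Function.uncurry Φ (z, s)‖
          = Real.pi / (4 * t) * ‖Real.exp (-(t * ‖z.1 - z.2‖ ^ 2)) * (ρ z.1 * ρ z.2)‖ := by
        intro z
        have h2 : ∀ s, ‖Function.uncurry Φ (z, s)‖ =
            Real.exp (-(2 * t * ‖z.1 - s‖ ^ 2)) * Real.exp (-(2 * t * ‖z.2 - s‖ ^ 2)) *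
              ‖ρ z.1 * ρ z.2‖ := by
          intro s
          simp only [Function.uncurry, hΦ]
          rw [norm_mul, Real.norm_of_nonneg (by positivity)]
        simp_rw [h2]
        rw [integral_mul_const, (ENE_int t ht z.1 z.2).2, norm_mul _ (ρ z.1 * ρ z.2),
          Real.norm_of_nonneg (Real.exp_pos _).le]
        ring
      simp_rw [h1]
      exact (ENE_bdd hi ht).norm.const_mul _
  have h3 : ∀ s, ∫ z, Φ z s = ENEH ρ t s ^ 2 := by
    intro s
    have h4 : ∀ z : ℂ × ℂ, Φ z s = (Real.exp (-(2 * t * ‖z.1 - s‖ ^ 2)) * ρ z.1) *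
        (Real.exp (-(2 * t * ‖z.2 - s‖ ^ 2)) * ρ z.2) := by
      intro z; simp only [hΦ]; ring
    simp_rw [h4]
    rw [sq, ENEH]
    exact integral_prod_mul (fun u : ℂ => Real.exp (-(2 * t * ‖u - s‖ ^ 2)) * ρ u)
      (fun u : ℂ => Real.exp (-(2 * t * ‖u - s‖ ^ 2)) * ρ u)
  have h5 : ∫ z, ∫ s, Φ z s = ∫ s, ∫ z, Φ z s := integral_integral_swap hint
  have h6 : ∀ z, ∫ s, Φ z s
      = Real.pi / (4 * t) * (Real.exp (-(t * ‖z.1 - z.2‖ ^ 2)) * (ρ z.1 * ρ z.2)) := by
    intro z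
    simp only [hΦ]
    rw [integral_mul_const, (ENE_int t ht z.1 z.2).2]
    ring
  simp_rw [h3, h6] at h5
  rw [integral_const_mul] at h5
  constructor
  · have := hint.integral_prod_right
    refine this.congr (Eventually.of_forall fun s => ?_)
    exact h3 s
  · rw [← h5, ENEG, ← mul_assoc]
    have : 4 * t / Real.pi * (Real.pi / (4 * t)) = 1 := by
      field_simp
    rw [this, one_mul]

theorem ENE_H_cont {ρ : ℂ → ℝ} (hi : Integrable ρ) {t : ℝ} (ht : 0 < t) :
    Continuous (ENEH ρ t) := by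
  refine continuous_of_dominated (bound := fun u => ‖ρ u‖) ?_ ?_ hi.norm ?_
  · intro s
    exact (by fun_prop : Continuous fun u : ℂ =>
      Real.exp (-(2 * t * ‖u - s‖ ^ 2))).aestronglyMeasurable.mul hi.aestronglyMeasurable
  · intro s
    refine Eventually.of_forall fun u => ?_
    rw [norm_mul, Real.norm_eq_abs, Real.abs_exp]
    have : Real.exp (-(2 * t * ‖u - s‖ ^ 2)) ≤ 1 :=
      Real.exp_le_one_iff.2 (neg_nonpos.2 (by positivity))
    nlinarith [norm_nonneg (ρ u)]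
  · refine Eventually.of_forall fun u => ?_
    fun_prop

theorem ENE_H_pos {ρ : ℂ → ℝ} (hi : Integrable ρ) {u0 : ℂ} (hc : ContinuousAt ρ u0)
    (hne : 0 < ρ u0) : ∃ T : ℝ, 0 < T ∧ ∀ t, T ≤ t → 0 < ENEH ρ t u0 := by
  obtain ⟨δ, hδ, hδ'⟩ := Metric.continuousAt_iff.1 hc (ρ u0 / 2) (by linarith)
  set c : ℝ := ρ u0 / 2 with hcdef
  have hcpos : 0 < c := by rw [hcdef]; linarith
  have hball : ∀ u, ‖u - u0‖ < δ → c ≤ ρ u := by
    intro u hu
    have := hδ' (by rw [dist_eq_norm]; exact hu)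
    rw [Real.dist_eq, abs_lt] at this
    linarith [this.1]
  set B : Set ℂ := Metric.ball u0 (δ / 2) with hB
  set m : ℝ := volume.real B with hmdef
  have hm : 0 < m := by
    rw [hmdef, measureReal_def]
    exact ENNReal.toReal_pos (Metric.measure_ball_pos volume u0 (by linarith)).ne'
      measure_ball_lt_top.ne
  set A : ℝ := ∫ u, ‖ρ u‖ with hA
  have hA0 : 0 ≤ A := integral_nonneg fun u => norm_nonneg _
  refine ⟨(A + 1) / (c * m * (3 / 2 * δ ^ 2)), by positivity, fun t ht => ?_⟩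
  have htpos : 0 < t := lt_of_lt_of_le (by positivity) ht
  have hlow : ∀ u, B.indicator (fun _ => c * Real.exp (-(t * δ ^ 2 / 2))) u -
      Real.exp (-(2 * t * δ ^ 2)) * ‖ρ u‖ ≤ Real.exp (-(2 * t * ‖u - u0‖ ^ 2)) * ρ u := by
    intro u
    have hn : 0 ≤ Real.exp (-(2 * t * δ ^ 2)) * ‖ρ u‖ := by positivity
    by_cases hu : u ∈ B
    · rw [indicator_of_mem hu]
      have h1 : ‖u - u0‖ < δ / 2 := by
        rw [← dist_eq_norm]; exact hu
      have h2 : c ≤ ρ u := hball u (by linarith)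
      have h3 : Real.exp (-(t * δ ^ 2 / 2)) ≤ Real.exp (-(2 * t * ‖u - u0‖ ^ 2)) := by
        apply Real.exp_le_exp.2
        have h4 : ‖u - u0‖ ^ 2 ≤ (δ / 2) ^ 2 := by
          have := norm_nonneg (u - u0)
          nlinarith
        nlinarith
      have h5 := mul_le_mul h3 h2 hcpos.le (Real.exp_pos _).le
      linarith
    · rw [indicator_of_notMem hu, zero_sub]
      by_cases hu2 : ‖u - u0‖ < δ
      · have h2 : c ≤ ρ u := hball u hu2
        have : 0 ≤ Real.exp (-(2 * t * ‖u - u0‖ ^ 2)) * ρ u :=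
          mul_nonneg (Real.exp_pos _).le (hcpos.le.trans h2)
        linarith
      · push Not at hu2
        have h3 : Real.exp (-(2 * t * ‖u - u0‖ ^ 2)) ≤ Real.exp (-(2 * t * δ ^ 2)) := by
          apply Real.exp_le_exp.2
          have h4 : δ ^ 2 ≤ ‖u - u0‖ ^ 2 := by nlinarith
          nlinarith
        have h4 : -‖ρ u‖ ≤ ρ u := by
          rw [Real.norm_eq_abs]; exact neg_abs_le _
        have h5 : Real.exp (-(2 * t * ‖u - u0‖ ^ 2)) * ‖ρ u‖ ≤
            Real.exp (-(2 * t * δ ^ 2)) * ‖ρ u‖ :=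
          mul_le_mul_of_nonneg_right h3 (norm_nonneg _)
        have h6 : Real.exp (-(2 * t * ‖u - u0‖ ^ 2)) * -‖ρ u‖ ≤
            Real.exp (-(2 * t * ‖u - u0‖ ^ 2)) * ρ u :=
          mul_le_mul_of_nonneg_left h4 (Real.exp_pos _).le
        linarith
  have hI1 : Integrable (B.indicator fun _ : ℂ => c * Real.exp (-(t * δ ^ 2 / 2))) := by
    rw [integrable_indicator_iff Metric.isOpen_ball.measurableSet]
    exact integrableOn_const (hs := measure_ball_lt_top.ne)
  have hI2 : Integrable fun u => Real.exp (-(2 * t * δ ^ 2)) * ‖ρ u‖ := hi.norm.const_mul _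
  have hI3 : Integrable fun u : ℂ => Real.exp (-(2 * t * ‖u - u0‖ ^ 2)) * ρ u := by
    refine hi.bdd_mul (c := 1) ?_ ?_
    · exact (by fun_prop : Continuous fun u : ℂ =>
        Real.exp (-(2 * t * ‖u - u0‖ ^ 2))).aestronglyMeasurable
    · refine Eventually.of_forall fun z => ?_
      rw [Real.norm_eq_abs, Real.abs_exp]
      exact Real.exp_le_one_iff.2 (neg_nonpos.2 (by positivity))
  have h7 := integral_mono (hI1.sub hI2) hI3 hlow
  have h8 : ∫ u, (B.indicator (fun _ => c * Real.exp (-(t * δ ^ 2 / 2))) u -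
      Real.exp (-(2 * t * δ ^ 2)) * ‖ρ u‖)
        = m * (c * Real.exp (-(t * δ ^ 2 / 2))) - Real.exp (-(2 * t * δ ^ 2)) * A := by
    rw [integral_sub hI1 hI2, integral_const_mul, integral_indicator
      Metric.isOpen_ball.measurableSet, setIntegral_const, smul_eq_mul]
  have h9 : m * (c * Real.exp (-(t * δ ^ 2 / 2))) - Real.exp (-(2 * t * δ ^ 2)) * A
      ≤ ENEH ρ t u0 := by
    rw [← h8]; exact h7
  refine lt_of_lt_of_le ?_ h9
  have h10 : Real.exp (-(2 * t * δ ^ 2)) =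
      Real.exp (-(t * δ ^ 2 / 2)) * Real.exp (-(3 / 2 * t * δ ^ 2)) := by
    rw [← Real.exp_add]; ring_nf
  rw [h10]
  have hx : 0 < 3 / 2 * t * δ ^ 2 := by positivity
  have h11 : Real.exp (-(3 / 2 * t * δ ^ 2)) ≤ 1 / (3 / 2 * t * δ ^ 2) := by
    rw [Real.exp_neg, ← one_div]
    apply one_div_le_one_div_of_le hx
    linarith [Real.add_one_le_exp (3 / 2 * t * δ ^ 2)]
  have h12 : A + 1 ≤ c * m * (3 / 2 * t * δ ^ 2) := by
    rw [div_le_iff₀ (by positivity)] at ht
    nlinarith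
  have h13 : A * Real.exp (-(3 / 2 * t * δ ^ 2)) < c * m := by
    calc A * Real.exp (-(3 / 2 * t * δ ^ 2)) ≤ A * (1 / (3 / 2 * t * δ ^ 2)) :=
          mul_le_mul_of_nonneg_left h11 hA0
      _ < c * m := by
          rw [mul_one_div, div_lt_iff₀ hx]
          linarith
  have h14 := Real.exp_pos (-(t * δ ^ 2 / 2))
  nlinarith

theorem ENE_G_nonneg {ρ : ℂ → ℝ} (hi : Integrable ρ) {t : ℝ} (ht : 0 < t) : 0 ≤ ENEG ρ t := by
  rw [(ENE_G hi ht).2]
  exact mul_nonneg (by positivity) (integral_nonneg fun s => sq_nonneg _)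

theorem ENE_G_pos {ρ : ℂ → ℝ} (hi : Integrable ρ) {t : ℝ} (ht : 0 < t) {u0 : ℂ}
    (h : 0 < ENEH ρ t u0) : 0 < ENEG ρ t := by
  rw [(ENE_G hi ht).2]
  refine mul_pos (by positivity) ?_
  rw [integral_pos_iff_support_of_nonneg (fun s => sq_nonneg _) (ENE_G hi ht).1]
  have hcont : Continuous fun s => ENEH ρ t s ^ 2 := (ENE_H_cont hi ht).pow 2
  exact hcont.isOpen_support.measure_pos volume ⟨u0, (pow_pos h 2).ne'⟩

theorem ENE_ne : ∀ᵐ z : ℂ × ℂ, z.1 ≠ z.2 := by
  rw [ae_iff]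
  have h1 : {z : ℂ × ℂ | ¬ z.1 ≠ z.2} = Set.diagonal ℂ := by
    ext z; simp
  rw [h1, Measure.volume_eq_prod, Measure.measure_prod_null measurableSet_diagonal]
  refine Eventually.of_forall fun x => ?_
  have : Prod.mk x ⁻¹' Set.diagonal ℂ = {x} := by
    ext y; simp [eq_comm]
  show volume (Prod.mk x ⁻¹' Set.diagonal ℂ) = 0
  rw [this, measure_singleton]

theorem ENE_case {ρ : ℂ → ℝ} (hm : Measurable ρ) (hi : Integrable ρ) (h0 : ∫ u, ρ u = 0)
    (hlog : Integrable fun z : ℂ × ℂ => Real.log ‖z.1 - z.2‖ * (ρ z.1 * ρ z.2)) {u0 : ℂ}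
    (hc : ContinuousAt ρ u0) (hne : 0 < ρ u0) :
    ∫ z : ℂ × ℂ, Real.log ‖z.1 - z.2‖ * (ρ z.1 * ρ z.2) < 0 := by
  set F : ℝ → ℂ × ℂ → ℝ := fun t z => ENEk (‖z.1 - z.2‖ ^ 2) t * (ρ z.1 * ρ z.2) with hFdef
  have hmeas : Measurable (Function.uncurry F) := by
    simp only [hFdef, ENEk, Function.uncurry_def]
    fun_prop
  have hlg : ∀ z : ℂ × ℂ, Real.log (‖z.1 - z.2‖ ^ 2) = 2 * Real.log ‖z.1 - z.2‖ := by
    intro z; rw [Real.log_pow]; norm_num
  have hk : ∀ z : ℂ × ℂ, z.1 ≠ z.2 → 0 < ‖z.1 - z.2‖ ^ 2 := fun z hz =>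
    pow_pos (norm_pos_iff.2 (sub_ne_zero.2 hz)) 2
  have hF : Integrable (Function.uncurry F) ((volume.restrict (Ioi 0)).prod volume) := by
    rw [integrable_prod_iff' hmeas.aestronglyMeasurable]
    constructor
    · filter_upwards [ENE_ne] with z hz
      exact (ENE_k (hk z hz)).1.mul_const (ρ z.1 * ρ z.2)
    · refine (hlog.norm.const_mul 2).congr ?_
      filter_upwards [ENE_ne] with z hz
      have h1 : ∀ t, ‖Function.uncurry F (t, z)‖
          = ‖ENEk (‖z.1 - z.2‖ ^ 2) t‖ * ‖ρ z.1 * ρ z.2‖ := by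
        intro t; simp only [Function.uncurry, hFdef]; rw [norm_mul]
      simp_rw [h1]
      rw [integral_mul_const, (ENE_k (hk z hz)).2.2, hlg, norm_mul, abs_mul,
        abs_of_pos (by norm_num : (0 : ℝ) < 2), Real.norm_eq_abs (Real.log _)]
      ring
  have h1 : ∫ z, ∫ t in Ioi (0 : ℝ), F t z = ∫ t in Ioi (0 : ℝ), ∫ z, F t z :=
    (integral_integral_swap hF).symm
  have h2 : ∫ z, ∫ t in Ioi (0 : ℝ), F t z
      = 2 * ∫ z : ℂ × ℂ, Real.log ‖z.1 - z.2‖ * (ρ z.1 * ρ z.2) := by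
    rw [← integral_const_mul]
    refine integral_congr_ae ?_
    filter_upwards [ENE_ne] with z hz
    simp only [hFdef]
    rw [integral_mul_const, (ENE_k (hk z hz)).2.1, hlg]
    ring
  have h3 : ∀ t : ℝ, 0 < t → ∫ z, F t z = -(ENEG ρ t / t) := by
    intro t ht
    have h4 : ∀ z, F t z = Real.exp (-t) / t * (ρ z.1 * ρ z.2) -
        1 / t * (Real.exp (-(t * ‖z.1 - z.2‖ ^ 2)) * (ρ z.1 * ρ z.2)) := by
      intro z; simp only [hFdef, ENEk]; ring
    simp_rw [h4]
    have hP : Integrable fun z : ℂ × ℂ => ρ z.1 * ρ z.2 := hi.mul_prod hi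
    rw [integral_sub (hP.const_mul _) ((ENE_bdd hi ht).const_mul _),
      integral_const_mul, integral_const_mul]
    have h5 : ∫ z : ℂ × ℂ, ρ z.1 * ρ z.2 = 0 := by
      have := integral_prod_mul (μ := (volume : Measure ℂ)) (ν := (volume : Measure ℂ)) ρ ρ
      rw [h0, mul_zero] at this
      exact this
    rw [h5, ENEG]
    ring
  have h6 : ∫ t in Ioi (0 : ℝ), ∫ z, F t z = -∫ t in Ioi (0 : ℝ), ENEG ρ t / t := by
    rw [← integral_neg]
    exact setIntegral_congr_fun measurableSet_Ioi fun t ht => h3 t ht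
  have h7 : IntegrableOn (fun t => ENEG ρ t / t) (Ioi 0) := by
    have := (hF.integral_prod_left).neg
    refine this.congr ?_
    refine (ae_restrict_iff' measurableSet_Ioi).2 (Eventually.of_forall fun t ht => ?_)
    have h8 := h3 t ht
    show -∫ z, Function.uncurry F (t, z) = ENEG ρ t / t
    have h9 : ∫ z, Function.uncurry F (t, z) = ∫ z, F t z := rfl
    rw [h9, h8, neg_neg]
  obtain ⟨T, hT, hT'⟩ := ENE_H_pos hi hc hne
  have h8 : 0 < ∫ t in Ioi (0 : ℝ), ENEG ρ t / t := by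
    rw [setIntegral_pos_iff_support_of_nonneg_ae _ h7]
    · have hsub : Ioi T ⊆ Function.support (fun t => ENEG ρ t / t) ∩ Ioi 0 := by
        intro t ht
        have ht' : T < t := ht
        have htp : 0 < t := hT.trans ht'
        exact ⟨(div_pos (ENE_G_pos hi htp (hT' t ht'.le)) htp).ne', htp⟩
      refine lt_of_lt_of_le ?_ (measure_mono hsub)
      rw [Real.volume_Ioi]
      exact ENNReal.zero_lt_top
    · refine (ae_restrict_iff' measurableSet_Ioi).2 (Eventually.of_forall fun t ht => ?_)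
      have ht' : (0 : ℝ) < t := ht
      exact div_nonneg (ENE_G_nonneg hi ht') ht'.le
  rw [h2] at h1
  rw [h6] at h1
  linarith

theorem energy_neg {ρ : ℂ → ℝ} (hm : Measurable ρ) (hi : Integrable ρ) (h0 : ∫ u, ρ u = 0)
    (hlog : Integrable fun z : ℂ × ℂ => Real.log ‖z.1 - z.2‖ * (ρ z.1 * ρ z.2)) {u0 : ℂ}
    (hc : ContinuousAt ρ u0) (hne : ρ u0 ≠ 0) :
    ∫ z : ℂ × ℂ, Real.log ‖z.1 - z.2‖ * (ρ z.1 * ρ z.2) < 0 := by
  rcases lt_or_gt_of_ne hne with h | h
  · have := ENE_case (ρ := fun u => -ρ u) hm.neg hi.neg (by rw [integral_neg, h0, neg_zero])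
      (by simpa using hlog) (u0 := u0) hc.neg (by linarith)
    simpa using this
  · exact ENE_case hm hi h0 hlog hc h

end Pool.Agent.Helper14.EP
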