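import Pool.Agent.Helper14.EP.Base

/-!
# The real span of the regulators is everything
-/

noncomputable section

open Complex MeasureTheory ComplexConjugate

namespace Pool.Agent.Helper14.EP

/-- basis vectors of `ℤ⁴` -/
def spnE (i : Fin 4) : Fin 4 → ℤ := fun j => if j = i then 1 else 0

/-- basis vectors of `ℝ⁶` -/
def spnF (p : Fin 6) : Fin 6 → ℝ := fun q => if q = p then 1 else 0

/-- symmetric product -/
def spnS (x y : Fin 6 → ℝ) : Matrix (Fin 6) (Fin 6) ℂ := fun p q =>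
  ((x p * y q + y p * x q : ℝ) : ℂ)

/-- alternating product -/
def spnA (x y : Fin 6 → ℝ) : Matrix (Fin 6) (Fin 6) ℂ := fun p q =>
  I * ((x p * y q - y p * x q : ℝ) : ℂ)

theorem spnS_symm (x y : Fin 6 → ℝ) : spnS x y = spnS y x := by
  ext p q
  simp only [spnS]
  rw [add_comm]

theorem spnA_symm (x y : Fin 6 → ℝ) : spnA x y = - spnA y x := by
  ext p q
  simp only [spnA, Matrix.neg_apply]
  push_cast
  ring

theorem spnA_self (x : Fin 6 → ℝ) : spnA x x = 0 := by
  ext p q
  simp [spnA]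

theorem spnS_add (x y z : Fin 6 → ℝ) : spnS (x + y) z = spnS x z + spnS y z := by
  ext p q
  simp only [spnS, Matrix.add_apply, Pi.add_apply]
  push_cast
  ring

theorem spnS_add' (x y z : Fin 6 → ℝ) : spnS z (x + y) = spnS z x + spnS z y := by
  rw [spnS_symm, spnS_add, spnS_symm x, spnS_symm y]

theorem spnS_smul (s : ℝ) (x z : Fin 6 → ℝ) : spnS (s • x) z = s • spnS x z := by
  ext p q
  simp only [spnS, Matrix.smul_apply, Pi.smul_apply, smul_eq_mul, Complex.real_smul]
  push_cast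
  ring

theorem spnS_smul' (s : ℝ) (x z : Fin 6 → ℝ) : spnS z (s • x) = s • spnS z x := by
  rw [spnS_symm, spnS_smul, spnS_symm x]

theorem spnA_add (x y z : Fin 6 → ℝ) : spnA (x + y) z = spnA x z + spnA y z := by
  ext p q
  simp only [spnA, Matrix.add_apply, Pi.add_apply]
  push_cast
  ring

theorem spnA_add' (x y z : Fin 6 → ℝ) : spnA z (x + y) = spnA z x + spnA z y := by
  rw [spnA_symm, spnA_add, spnA_symm x, spnA_symm y]
  abel

theorem spnA_smul (s : ℝ) (x z : Fin 6 → ℝ) : spnA (s • x) z = s • spnA x z := by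
  ext p q
  simp only [spnA, Matrix.smul_apply, Pi.smul_apply, smul_eq_mul, Complex.real_smul]
  push_cast
  ring

theorem spnA_smul' (s : ℝ) (x z : Fin 6 → ℝ) : spnA z (s • x) = s • spnA z x := by
  rw [spnA_symm, spnA_smul, spnA_symm x, smul_neg]
  simp

/-- the table of the pairs with a common index, over the integers -/
theorem spn_tab : ∀ p q : Fin 6, p ≠ q → p.val + q.val ≠ 5 → ∃ i j k : Fin 4, ∃ s t : Bool,
    ∀ c : Fin 6, spnE i (pr c).1 * spnE j (pr c).2 - spnE i (pr c).2 * spnE j (pr c).1 =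
        (if s then 1 else -1) * (if c = p then 1 else 0) ∧
      spnE i (pr c).1 * spnE k (pr c).2 - spnE i (pr c).2 * spnE k (pr c).1 =
        (if t then 1 else -1) * (if c = q then 1 else 0) := by
  decide

theorem spn_tab' (p q : Fin 6) (h : p ≠ q) (h5 : p.val + q.val ≠ 5) : ∃ i j k : Fin 4,
    ∃ s t : ℝ, s * s = 1 ∧ t * t = 1 ∧ w2 (spnE i) (spnE j) = s • spnF p ∧
      w2 (spnE i) (spnE k) = t • spnF q := by
  obtain ⟨i, j, k, s, t, hc⟩ := spn_tab p q h h5
  refine ⟨i, j, k, if s then 1 else -1, if t then 1 else -1, by cases s <;> norm_num,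
    by cases t <;> norm_num, ?_, ?_⟩
  · funext c
    have h1 := congrArg (fun z : ℤ => (z : ℝ)) (hc c).1
    simp only [w2, Pi.smul_apply, smul_eq_mul, spnF]
    push_cast at h1
    exact h1
  · funext c
    have h1 := congrArg (fun z : ℤ => (z : ℝ)) (hc c).2
    simp only [w2, Pi.smul_apply, smul_eq_mul, spnF]
    push_cast at h1
    exact h1

theorem spn_diag : ∀ p : Fin 6, w2 (spnE (pr p).1) (spnE (pr p).2) = spnF p := by
  intro p
  funext c
  have h : ∀ p c : Fin 6, spnE (pr p).1 (pr c).1 * spnE (pr p).2 (pr c).2 -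
      spnE (pr p).1 (pr c).2 * spnE (pr p).2 (pr c).1 = if c = p then 1 else 0 := by decide
  have h1 := congrArg (fun z : ℤ => (z : ℝ)) (h p c)
  simp only [w2, spnF]
  push_cast at h1
  exact h1

/-- the signs of the wedge pairing -/
def spnc (p q : Fin 6) : ℝ := if p.val + q.val = 5 then (if p = 1 ∨ p = 4 then -1 else 1) else 0

theorem spn_decomp {H : Matrix (Fin 6) (Fin 6) ℂ} (hH : H.IsHermitian) :
    H = ∑ p, ∑ q, (((H p q).re / 2) • spnS (spnF p) (spnF q) +
      ((H p q).im / 2) • spnA (spnF p) (spnF q)) := by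
  ext i j
  have hij : H j i = conj (H i j) := by
    have := hH.apply j i
    rw [← this]
    rfl
  have hre : (H j i).re = (H i j).re := by rw [hij]; simp
  have him : (H j i).im = - (H i j).im := by rw [hij]; simp
  have h1 : ∀ r : Fin 6 → Fin 6 → ℝ, ∑ p, ∑ q, (r p q : ℂ) * ((spnF p i * spnF q j : ℝ) : ℂ) =
      (r i j : ℂ) := by
    intro r
    rw [Finset.sum_eq_single i, Finset.sum_eq_single j]
    · simp [spnF]
    · intro b _ hb
      simp [spnF, hb.symm]
    · simp
    · intro b _ hb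
      apply Finset.sum_eq_zero
      intro x _
      simp [spnF, hb.symm]
    · simp
  have h2 : ∀ r : Fin 6 → Fin 6 → ℝ, ∑ p, ∑ q, (r p q : ℂ) * ((spnF q i * spnF p j : ℝ) : ℂ) =
      (r j i : ℂ) := by
    intro r
    rw [Finset.sum_comm]
    exact h1 fun p q => r q p
  have h3 : (∑ p, ∑ q, (((H p q).re / 2) • spnS (spnF p) (spnF q) +
      ((H p q).im / 2) • spnA (spnF p) (spnF q))) i j =
      (∑ p, ∑ q, (((H p q).re / 2 : ℝ) : ℂ) * ((spnF p i * spnF q j : ℝ) : ℂ)) +
      (∑ p, ∑ q, (((H p q).re / 2 : ℝ) : ℂ) * ((spnF q i * spnF p j : ℝ) : ℂ)) +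
      I * ((∑ p, ∑ q, (((H p q).im / 2 : ℝ) : ℂ) * ((spnF p i * spnF q j : ℝ) : ℂ)) -
      (∑ p, ∑ q, (((H p q).im / 2 : ℝ) : ℂ) * ((spnF q i * spnF p j : ℝ) : ℂ))) := by
    rw [Matrix.sum_apply, ← Finset.sum_sub_distrib, Finset.mul_sum, ← Finset.sum_add_distrib,
      ← Finset.sum_add_distrib]
    refine Finset.sum_congr rfl fun p _ => ?_
    rw [Matrix.sum_apply, ← Finset.sum_sub_distrib, Finset.mul_sum, ← Finset.sum_add_distrib,
      ← Finset.sum_add_distrib]
    refine Finset.sum_congr rfl fun q _ => ?_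
    simp only [spnS, spnA, Matrix.add_apply, Matrix.smul_apply, Complex.real_smul]
    push_cast
    ring
  rw [h3, h1, h2, h1, h2, hre, him]
  apply Complex.ext
  · simp
  · simp
    ring

theorem span_crit (V : Submodule ℝ (Matrix (Fin 6) (Fin 6) ℂ))
    (h1 : ∀ a b : Fin 4 → ℤ, (fun p q => ((w2 a b p * w2 a b q : ℝ) : ℂ)) ∈ V)
    (h2 : ∀ m1 m2 m3 : Fin 4 → ℤ, (fun p q =>
      I * ((w2 m1 m3 p * w2 m2 m3 q - w2 m2 m3 p * w2 m1 m3 q : ℝ) : ℂ)) ∈ V)
    (h3 : ∃ H ∈ V, H.IsHermitian ∧ trJ H ≠ 0) (H : Matrix (Fin 6) (Fin 6) ℂ)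
    (hH : H.IsHermitian) : H ∈ V := by
  have hsq : ∀ a b : Fin 4 → ℤ, spnS (w2 a b) (w2 a b) ∈ V := by
    intro a b
    have e : spnS (w2 a b) (w2 a b) =
        (2 : ℝ) • (fun p q => ((w2 a b p * w2 a b q : ℝ) : ℂ) : Matrix (Fin 6) (Fin 6) ℂ) := by
      ext p q
      change ((_ : ℝ) : ℂ) = (2 : ℝ) • ((w2 a b p * w2 a b q : ℝ) : ℂ)
      rw [Complex.real_smul]
      push_cast
      ring
    rw [e]
    exact V.smul_mem _ (h1 a b)
  have hadd : ∀ a b c : Fin 4 → ℤ, w2 a (b + c) = w2 a b + w2 a c := by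
    intro a b c
    funext p
    simp only [w2, Pi.add_apply]
    push_cast
    ring
  have hadd' : ∀ a b c : Fin 4 → ℤ, w2 (b + c) a = w2 b a + w2 c a := by
    intro a b c
    funext p
    simp only [w2, Pi.add_apply]
    push_cast
    ring
  have hneg : ∀ a b : Fin 4 → ℤ, w2 a b = (-1 : ℝ) • w2 b a := by
    intro a b
    funext p
    simp only [w2, Pi.smul_apply, smul_eq_mul]
    ring
  have hsy : ∀ a b c : Fin 4 → ℤ, spnS (w2 a b) (w2 a c) ∈ V := by
    intro a b c
    have e1 := hsq a (b + c)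
    rw [hadd, spnS_add, spnS_add', spnS_add', spnS_symm (w2 a c) (w2 a b)] at e1
    have e2 : (2 : ℝ) • spnS (w2 a b) (w2 a c) ∈ V := by
      have e3 := V.sub_mem (V.sub_mem e1 (hsq a b)) (hsq a c)
      convert e3 using 1
      rw [two_smul]
      abel
    have e4 := V.smul_mem (1 / 2 : ℝ) e2
    rw [smul_smul] at e4
    norm_num at e4
    exact e4
  have hal : ∀ a b c : Fin 4 → ℤ, spnA (w2 b a) (w2 c a) ∈ V := fun a b c => h2 b c a
  have hal' : ∀ a b c : Fin 4 → ℤ, spnA (w2 a b) (w2 a c) ∈ V := by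
    intro a b c
    rw [hneg a b, hneg a c, spnA_smul, spnA_smul']
    exact V.smul_mem _ (V.smul_mem _ (hal a b c))
  -- the pairs with a common index
  have hSs : ∀ p q : Fin 6, p.val + q.val ≠ 5 → spnS (spnF p) (spnF q) ∈ V := by
    intro p q h5
    by_cases hpq : p = q
    · subst hpq
      have := hsq (spnE (pr p).1) (spnE (pr p).2)
      rwa [spn_diag] at this
    · obtain ⟨i, j, k, s, t, hs, ht, hp, hq⟩ := spn_tab' p q hpq h5
      have e := hsy (spnE i) (spnE j) (spnE k)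
      rw [hp, hq, spnS_smul, spnS_smul', smul_smul] at e
      have e2 := V.smul_mem (s * t) e
      rw [smul_smul, show s * t * (s * t) = (s * s) * (t * t) by ring, hs, ht, one_mul,
        one_smul] at e2
      exact e2
  have hAs : ∀ p q : Fin 6, p.val + q.val ≠ 5 → spnA (spnF p) (spnF q) ∈ V := by
    intro p q h5
    by_cases hpq : p = q
    · subst hpq
      rw [spnA_self]
      exact V.zero_mem
    · obtain ⟨i, j, k, s, t, hs, ht, hp, hq⟩ := spn_tab' p q hpq h5
      have e := hal' (spnE i) (spnE j) (spnE k)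
      rw [hp, hq, spnA_smul, spnA_smul', smul_smul] at e
      have e2 := V.smul_mem (s * t) e
      rw [smul_smul, show s * t * (s * t) = (s * s) * (t * t) by ring, hs, ht, one_mul,
        one_smul] at e2
      exact e2
  have d0 : w2 (spnE 0) (spnE 1) = spnF 0 := spn_diag 0
  have d1 : w2 (spnE 0) (spnE 2) = spnF 1 := spn_diag 1
  have d2 : w2 (spnE 0) (spnE 3) = spnF 2 := spn_diag 2
  have d3 : w2 (spnE 1) (spnE 2) = spnF 3 := spn_diag 3
  have d4 : w2 (spnE 1) (spnE 3) = spnF 4 := spn_diag 4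
  have d5 : w2 (spnE 2) (spnE 3) = spnF 5 := spn_diag 5
  have half : ∀ X : Matrix (Fin 6) (Fin 6) ℂ, X + X ∈ V → X ∈ V := by
    intro X hX
    have := V.smul_mem (1 / 2 : ℝ) hX
    rw [← two_smul ℝ, smul_smul] at this
    norm_num at this
    exact this
  -- symmetric relations
  have hr1 : spnS (spnF 1) (spnF 4) + spnS (spnF 2) (spnF 3) ∈ V := by
    have e := hsq (spnE 0 + spnE 1) (spnE 2 + spnE 3)
    rw [hadd, hadd', hadd', d1, d2, d3, d4] at e
    simp only [spnS_add, spnS_add'] at e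
    rw [spnS_symm (spnF 3) (spnF 1), spnS_symm (spnF 3) (spnF 2), spnS_symm (spnF 2) (spnF 1),
      spnS_symm (spnF 4) (spnF 1), spnS_symm (spnF 4) (spnF 3), spnS_symm (spnF 4) (spnF 2)] at e
    apply half
    have k11 := hSs 1 1 (by decide)
    have k22 := hSs 2 2 (by decide)
    have k33 := hSs 3 3 (by decide)
    have k44 := hSs 4 4 (by decide)
    have k12 := hSs 1 2 (by decide)
    have k13 := hSs 1 3 (by decide)
    have k24 := hSs 2 4 (by decide)
    have k34 := hSs 3 4 (by decide)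
    have e2 := V.sub_mem (V.sub_mem (V.sub_mem (V.sub_mem (V.sub_mem (V.sub_mem (V.sub_mem
      (V.sub_mem (V.sub_mem (V.sub_mem (V.sub_mem (V.sub_mem e k11) k22) k33) k44) k12) k12) k13)
      k13) k24) k24) k34) k34
    convert e2 using 1
    abel
  have hr2 : spnS (spnF 0) (spnF 5) - spnS (spnF 2) (spnF 3) ∈ V := by
    have e := hsq (spnE 0 + spnE 2) (spnE 1 + spnE 3)
    rw [hadd, hadd', hadd', hneg (spnE 2) (spnE 1), d0, d2, d3, d5] at e
    simp only [spnS_add, spnS_add', spnS_smul, spnS_smul'] at e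
    rw [spnS_symm (spnF 3) (spnF 0), spnS_symm (spnF 3) (spnF 2), spnS_symm (spnF 2) (spnF 0),
      spnS_symm (spnF 5) (spnF 0), spnS_symm (spnF 5) (spnF 3), spnS_symm (spnF 5) (spnF 2)] at e
    apply half
    have k00 := hSs 0 0 (by decide)
    have k22 := hSs 2 2 (by decide)
    have k33 := hSs 3 3 (by decide)
    have k55 := hSs 5 5 (by decide)
    have k02 := hSs 0 2 (by decide)
    have k03 := hSs 0 3 (by decide)
    have k25 := hSs 2 5 (by decide)
    have k35 := hSs 3 5 (by decide)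
    have e2 := V.sub_mem (V.sub_mem (V.sub_mem (V.sub_mem (V.sub_mem (V.sub_mem (V.add_mem
      (V.add_mem (V.sub_mem (V.sub_mem (V.add_mem (V.add_mem e k35) k35) k00) k22) k03) k03) k33)
      k55) k02) k02) k25) k25
    convert e2 using 1
    module
  -- alternating relations
  have hA1 : spnA (spnF 0) (spnF 5) + spnA (spnF 1) (spnF 4) ∈ V := by
    have e := hal (spnE 1 + spnE 2) (spnE 0) (spnE 3)
    rw [hadd, hadd, hneg (spnE 3) (spnE 1), hneg (spnE 3) (spnE 2), d0, d1, d4, d5] at e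
    simp only [spnA_add, spnA_add', spnA_smul'] at e
    have k04 := hAs 0 4 (by decide)
    have k15 := hAs 1 5 (by decide)
    have e2 := V.smul_mem (-1 : ℝ) (V.add_mem (V.add_mem e k04) k15)
    convert e2 using 1
    module
  have hA2 : spnA (spnF 0) (spnF 5) - spnA (spnF 2) (spnF 3) ∈ V := by
    have e := hal (spnE 1 + spnE 3) (spnE 0) (spnE 2)
    rw [hadd, hadd, hneg (spnE 2) (spnE 1), d0, d2, d3, d5] at e
    simp only [spnA_add, spnA_add', spnA_smul'] at e
    have k03 := hAs 0 3 (by decide)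
    have k25 := hAs 2 5 (by decide)
    have e2 := V.sub_mem (V.add_mem e k03) k25
    convert e2 using 1
    module
  have hA3 : spnA (spnF 1) (spnF 4) - spnA (spnF 2) (spnF 3) ∈ V := by
    have e := hal (spnE 0 + spnE 1) (spnE 2) (spnE 3)
    rw [hadd, hadd, hneg (spnE 2) (spnE 0), hneg (spnE 2) (spnE 1), hneg (spnE 3) (spnE 0),
      hneg (spnE 3) (spnE 1), d1, d3, d2, d4] at e
    simp only [spnA_add, spnA_add', spnA_smul, spnA_smul'] at e
    rw [spnA_symm (spnF 3) (spnF 2)] at e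
    have k12 := hAs 1 2 (by decide)
    have k34 := hAs 3 4 (by decide)
    have e2 := V.sub_mem (V.sub_mem e k12) k34
    convert e2 using 1
    module
  have kA23 : spnA (spnF 2) (spnF 3) ∈ V := by
    apply half
    have e2 := V.sub_mem (V.sub_mem hA1 hA2) hA3
    convert e2 using 1
    module
  have kA05 : spnA (spnF 0) (spnF 5) ∈ V := by
    have := V.add_mem hA2 kA23
    rwa [sub_add_cancel] at this
  have kA14 : spnA (spnF 1) (spnF 4) ∈ V := by
    have := V.add_mem hA3 kA23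
    rwa [sub_add_cancel] at this
  have hAall : ∀ p q : Fin 6, spnA (spnF p) (spnF q) ∈ V := by
    intro p q
    by_cases h5 : p.val + q.val = 5
    · have h6 : ∀ p q : Fin 6, p.val + q.val = 5 → (p = 0 ∧ q = 5) ∨ (p = 5 ∧ q = 0) ∨
          (p = 1 ∧ q = 4) ∨ (p = 4 ∧ q = 1) ∨ (p = 2 ∧ q = 3) ∨ (p = 3 ∧ q = 2) := by decide
      rcases h6 p q h5 with ⟨rfl, rfl⟩ | ⟨rfl, rfl⟩ | ⟨rfl, rfl⟩ | ⟨rfl, rfl⟩ | ⟨rfl, rfl⟩ |
        ⟨rfl, rfl⟩
      · exact kA05
      · rw [spnA_symm]; exact V.neg_mem kA05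
      · exact kA14
      · rw [spnA_symm]; exact V.neg_mem kA14
      · exact kA23
      · rw [spnA_symm]; exact V.neg_mem kA23
    · exact hAs p q h5
  -- modulo `V`
  have hSc : ∀ p q : Fin 6, spnS (spnF p) (spnF q) - spnc p q • spnS (spnF 2) (spnF 3) ∈ V := by
    intro p q
    by_cases h5 : p.val + q.val = 5
    · have h6 : ∀ p q : Fin 6, p.val + q.val = 5 → (p = 0 ∧ q = 5) ∨ (p = 5 ∧ q = 0) ∨
          (p = 1 ∧ q = 4) ∨ (p = 4 ∧ q = 1) ∨ (p = 2 ∧ q = 3) ∨ (p = 3 ∧ q = 2) := by decide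
      have e1 : spnS (spnF 0) (spnF 5) - (1 : ℝ) • spnS (spnF 2) (spnF 3) ∈ V := by
        rw [one_smul]; exact hr2
      have e2 : spnS (spnF 1) (spnF 4) - (-1 : ℝ) • spnS (spnF 2) (spnF 3) ∈ V := by
        rw [neg_one_smul, sub_neg_eq_add]; exact hr1
      have e3 : spnS (spnF 2) (spnF 3) - (1 : ℝ) • spnS (spnF 2) (spnF 3) ∈ V := by
        rw [one_smul, sub_self]; exact V.zero_mem
      rcases h6 p q h5 with ⟨rfl, rfl⟩ | ⟨rfl, rfl⟩ | ⟨rfl, rfl⟩ | ⟨rfl, rfl⟩ | ⟨rfl, rfl⟩ |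
        ⟨rfl, rfl⟩
      · have : spnc 0 5 = 1 := by simp [spnc]
        rw [this]; exact e1
      · have : spnc 5 0 = 1 := by simp [spnc]
        rw [this, spnS_symm (spnF 5)]; exact e1
      · have : spnc 1 4 = -1 := by simp [spnc]
        rw [this]; exact e2
      · have : spnc 4 1 = -1 := by simp [spnc]
        rw [this, spnS_symm (spnF 4)]; exact e2
      · have : spnc 2 3 = 1 := by simp [spnc]
        rw [this]; exact e3
      · have : spnc 3 2 = 1 := by simp [spnc]
        rw [this, spnS_symm (spnF 3)]; exact e3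
    · have : spnc p q = 0 := by simp [spnc, h5]
      rw [this, zero_smul, sub_zero]
      exact hSs p q h5
  have key : ∀ H : Matrix (Fin 6) (Fin 6) ℂ, H.IsHermitian →
      H - trJ H • spnS (spnF 2) (spnF 3) ∈ V := by
    intro H hH
    have hre : ∀ i j, (H j i).re = (H i j).re := by
      intro i j
      have := hH.apply j i
      rw [← this]
      simp
    have e1 : ∑ p, ∑ q, (((H p q).re / 2) • (spnS (spnF p) (spnF q) -
        spnc p q • spnS (spnF 2) (spnF 3)) + ((H p q).im / 2) • spnA (spnF p) (spnF q)) ∈ V := by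
      refine V.sum_mem fun p _ => V.sum_mem fun q _ => ?_
      exact V.add_mem (V.smul_mem _ (hSc p q)) (V.smul_mem _ (hAall p q))
    have e2 : ∑ p, ∑ q, (((H p q).re / 2) • (spnS (spnF p) (spnF q) -
        spnc p q • spnS (spnF 2) (spnF 3)) + ((H p q).im / 2) • spnA (spnF p) (spnF q)) =
        (∑ p, ∑ q, (((H p q).re / 2) • spnS (spnF p) (spnF q) +
        ((H p q).im / 2) • spnA (spnF p) (spnF q))) -
        (∑ p, ∑ q, ((H p q).re / 2) * spnc p q) • spnS (spnF 2) (spnF 3) := by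
      rw [Finset.sum_smul, ← Finset.sum_sub_distrib]
      refine Finset.sum_congr rfl fun p _ => ?_
      rw [Finset.sum_smul, ← Finset.sum_sub_distrib]
      refine Finset.sum_congr rfl fun q _ => ?_
      module
    rw [e2, ← spn_decomp hH] at e1
    have e3 : ∑ p, ∑ q, ((H p q).re / 2) * spnc p q = trJ H := by
      simp only [Fin.sum_univ_six, spnc, trJ, Fin.ext_iff]
      norm_num
      rw [hre 0 5, hre 1 4, hre 2 3]
      ring
    rw [e3] at e1
    exact e1
  obtain ⟨H0, hV0, hH0, ht0⟩ := h3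
  have e1 := V.sub_mem hV0 (key H0 hH0)
  rw [sub_sub_cancel] at e1
  have e2 := V.smul_mem (trJ H0)⁻¹ e1
  rw [smul_smul, inv_mul_cancel₀ ht0, one_smul] at e2
  have e3 := V.add_mem (key H hH) (V.smul_mem (trJ H) e2)
  rwa [sub_add_cancel] at e3

end Pool.Agent.Helper14.EP
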