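import Pool.Agent.Helper14.EP.INT

/-!
# The two signs
-/

noncomputable section

open Complex MeasureTheory ComplexConjugate

namespace Pool.Agent.Helper14.EP

variable {l : ℂ}

theorem pol_cont (l : ℂ) : Continuous (pol l) := by
  unfold pol; fun_prop

theorem pol_meas (l : ℂ) : Measurable (pol l) := (pol_cont l).measurable

theorem exists_real (l : ℂ) : ∃ u : ℝ, 1 < u ∧ pol l u ≠ 0 := by
  have h1 := norm_nonneg l
  have h2 := norm_nonneg l⁻¹
  obtain ⟨u, hu⟩ : ∃ u : ℝ, u = 2 + ‖l‖ + ‖l⁻¹‖ := ⟨_, rfl⟩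
  have hn : ∀ m : ℂ, ‖m‖ < u ^ 2 → (u : ℂ) ^ 2 - m ≠ 0 := by
    intro m hm h
    rw [← sub_eq_zero.mp h, norm_pow, norm_real, Real.norm_eq_abs, sq_abs] at hm
    exact lt_irrefl _ hm
  refine ⟨u, by linarith, ?_⟩
  unfold pol
  refine mul_ne_zero (mul_ne_zero (hn _ ?_) (hn _ ?_)) (hn _ ?_)
  · rw [norm_one]; nlinarith
  · nlinarith
  · nlinarith

theorem pol_neg (l u : ℂ) : pol l (-u) = pol l u := by
  unfold pol; ring

theorem rho_neg (l u : ℂ) : rho l (-u) = -rho l u := by
  unfold rho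
  rw [pol_neg, neg_re, neg_div]

theorem rho_meas (l : ℂ) : Measurable (rho l) :=
  measurable_re.div (pol_meas l).norm

theorem wt_ms (l : ℂ) : Measurable (wt l) :=
  (measurable_const.add (measurable_norm.pow_const 2)).div (pol_meas l).norm

theorem wt_nn (l u : ℂ) : 0 ≤ wt l u := by unfold wt; positivity

theorem rho_le (l u : ℂ) : |rho l u| ≤ wt l u := by
  unfold rho wt
  rw [abs_div, abs_of_nonneg (norm_nonneg (pol l u))]
  refine div_le_div_of_nonneg_right ?_ (norm_nonneg _)
  have := abs_re_le_norm u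
  nlinarith [sq_nonneg (1 - ‖u‖), norm_nonneg u]

theorem rho_int (hl : Good l) : Integrable (rho l) :=
  (int_wt hl).mono' (rho_meas l).aestronglyMeasurable
    (Filter.Eventually.of_forall fun u => by rw [Real.norm_eq_abs]; exact rho_le l u)

theorem rho_zero (l : ℂ) : ∫ u, rho l u = 0 := by
  have h : ∫ u, rho l (-u) = ∫ u, rho l u := integral_neg_eq_self (rho l) volume
  simp only [rho_neg] at h
  rw [integral_neg] at h
  linarith

theorem log_rho_int (hl : Good l) (a : ℂ) :
    Integrable fun u => Real.log ‖u - a‖ * rho l u :=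
  (int_log hl a).norm.mono'
    (((measurable_id.sub_const a).norm.log.mul (rho_meas l)).aestronglyMeasurable)
    (Filter.Eventually.of_forall fun u => by
      rw [norm_mul, norm_mul]
      refine mul_le_mul_of_nonneg_left ?_ (norm_nonneg _)
      rw [Real.norm_eq_abs, Real.norm_of_nonneg (wt_nn l u)]
      exact rho_le l u)

theorem norm_lt {u : ℂ} (h : 0 < u.re) : ‖u - 1‖ < ‖u + 1‖ := by
  rw [← sq_lt_sq₀ (norm_nonneg _) (norm_nonneg _), ← normSq_eq_norm_sq, ← normSq_eq_norm_sq,
    normSq_apply, normSq_apply]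
  simp
  nlinarith

theorem sgn_pt (u : ℂ) : (Real.log ‖u - 1‖ - Real.log ‖u + 1‖) * rho l u ≤ 0 := by
  by_cases hp : pol l u = 0
  · simp [rho, hp]
  have hp' : 0 < ‖pol l u‖ := norm_pos_iff.mpr hp
  have h1 : 0 < ‖u - 1‖ := norm_pos_iff.mpr fun h => hp (by
    rw [sub_eq_zero.mp h, pol]; ring)
  have h2 : 0 < ‖u + 1‖ := norm_pos_iff.mpr fun h => hp (by
    rw [eq_neg_of_add_eq_zero_left h, pol]; ring)
  rcases le_total 0 u.re with h | h
  · rcases h.eq_or_lt with h0 | h0
    · simp [rho, ← h0]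
    · have h3 := Real.log_lt_log h1 (norm_lt h0)
      refine mul_nonpos_of_nonpos_of_nonneg (by linarith) ?_
      unfold rho; positivity
  · rcases h.eq_or_lt with h0 | h0
    · simp [rho, h0]
    · have h4 := norm_lt (u := -u) (by simpa using h0)
      have e1 : ‖-u - 1‖ = ‖u + 1‖ := by rw [← norm_neg]; congr 1; ring
      have e2 : ‖-u + 1‖ = ‖u - 1‖ := by rw [← norm_neg]; congr 1; ring
      rw [e1, e2] at h4
      have h3 := Real.log_lt_log h2 h4
      refine mul_nonpos_of_nonneg_of_nonpos (by linarith) ?_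
      unfold rho
      exact div_nonpos_of_nonpos_of_nonneg h (norm_nonneg _)

theorem open_pos (l : ℂ) : 0 < volume {u : ℂ | 1 < u.re ∧ pol l u ≠ 0} := by
  have ho : IsOpen {u : ℂ | 1 < u.re ∧ pol l u ≠ 0} :=
    (isOpen_lt continuous_const continuous_re).inter (isOpen_ne_fun (pol_cont l) continuous_const)
  obtain ⟨u, hu, hu'⟩ := exists_real l
  exact ho.measure_pos volume ⟨(u : ℂ), by simpa using hu, hu'⟩

theorem sgn_neg (hl : Good l) :
    ∫ u : ℂ, (Real.log ‖u - 1‖ - Real.log ‖u + 1‖) * rho l u < 0 := by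
  have hi : Integrable fun u => -((Real.log ‖u - 1‖ - Real.log ‖u + 1‖) * rho l u) := by
    have h1 := log_rho_int hl 1
    have h2 := log_rho_int hl (-1)
    simp only [sub_neg_eq_add] at h2
    refine ((h1.sub h2).neg).congr (Filter.Eventually.of_forall fun u => ?_)
    simp only [Pi.neg_apply, Pi.sub_apply]
    ring
  have h : 0 < ∫ u : ℂ, -((Real.log ‖u - 1‖ - Real.log ‖u + 1‖) * rho l u) := by
    rw [integral_pos_iff_support_of_nonneg (fun u => by
      simpa using sgn_pt (l := l) u) hi]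
    refine (open_pos l).trans_le (measure_mono ?_)
    rintro u ⟨h0, hp⟩
    have hp' : 0 < ‖pol l u‖ := norm_pos_iff.mpr hp
    have h1 : 0 < ‖u - 1‖ := norm_pos_iff.mpr fun h => hp (by
      rw [sub_eq_zero.mp h, pol]; ring)
    have h3 := Real.log_lt_log h1 (norm_lt (by linarith : 0 < u.re))
    have h4 : 0 < rho l u := by unfold rho; exact div_pos (by linarith) hp'
    exact (neg_pos.mpr (mul_neg_of_neg_of_pos (by linarith) h4)).ne'
  rw [integral_neg] at h
  linarith

theorem KK_int (hl : Good l) : Integrable fun u : ℂ => ‖u‖ ^ 2 / ‖pol l u‖ :=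
  (int_wt hl).mono' ((measurable_norm.pow_const 2).div (pol_meas l).norm).aestronglyMeasurable
    (Filter.Eventually.of_forall fun u => by
      rw [Real.norm_of_nonneg (by positivity)]
      exact div_le_div_of_nonneg_right (by linarith) (norm_nonneg _))

theorem KK_pos (hl : Good l) : 0 < KK l := by
  unfold KK
  rw [integral_pos_iff_support_of_nonneg (fun u => by positivity) (KK_int hl)]
  refine (open_pos l).trans_le (measure_mono ?_)
  rintro u ⟨h0, hp⟩
  have hp' : 0 < ‖pol l u‖ := norm_pos_iff.mpr hp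
  have h1 : 0 < ‖u‖ := norm_pos_iff.mpr fun h => by rw [h] at h0; simp at h0; linarith
  exact (by positivity : 0 < ‖u‖ ^ 2 / ‖pol l u‖).ne'

end Pool.Agent.Helper14.EP
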