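import Pool.Agent.Helper14.EP.RGI
import Pool.Agent.Helper14.EP.SGN
import Pool.Agent.Helper14.EP.ENE

/-!
# The component of the regulator of `Ξ` at the invariant class
-/

noncomputable section

open Complex MeasureTheory ComplexConjugate

namespace Pool.Agent.Helper14.EP

variable {l : ℂ}

theorem reg_re (hl : Good l) (t : Term l) (a b : Fin 6) : (t.reg a b).re =
    t.n * ∫ z : ℂ × ℂ, t.lg z / (‖pol l z.1‖ * ‖pol l z.2‖)
      * (wed t.M a z * conj (wed t.M b z)).re := by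
  have h := reCLM.integral_comp_comm (term_int hl t a b)
  simp only [reCLM_apply] at h
  have h2 : ∀ z : ℂ × ℂ, (((t.lg z / (‖pol l z.1‖ * ‖pol l z.2‖) : ℝ) : ℂ)
      * (wed t.M a z * conj (wed t.M b z))).re
      = t.lg z / (‖pol l z.1‖ * ‖pol l z.2‖) * (wed t.M a z * conj (wed t.M b z)).re :=
    fun z => re_ofReal_mul _ _
  simp_rw [h2] at h
  unfold Term.reg
  rw [h]
  have h3 : (t.n : ℂ) = ((t.n : ℝ) : ℂ) := by push_cast; rfl
  rw [h3, re_ofReal_mul]

theorem reg_re_int (hl : Good l) (t : Term l) (a b : Fin 6) : Integrable fun z : ℂ × ℂ =>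
    t.lg z / (‖pol l z.1‖ * ‖pol l z.2‖) * (wed t.M a z * conj (wed t.M b z)).re := by
  refine (term_int hl t a b).re.congr (Filter.Eventually.of_forall fun z => ?_)
  exact re_ofReal_mul _ _

theorem det_expand (M : Matrix (Fin 4) (Fin 4) ℤ) : M.det =
    M 0 0 * (M 1 1 * (M 2 2 * M 3 3 - M 2 3 * M 3 2) - M 1 2 * (M 2 1 * M 3 3 - M 2 3 * M 3 1)
      + M 1 3 * (M 2 1 * M 3 2 - M 2 2 * M 3 1))
    - M 0 1 * (M 1 0 * (M 2 2 * M 3 3 - M 2 3 * M 3 2) - M 1 2 * (M 2 0 * M 3 3 - M 2 3 * M 3 0)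
      + M 1 3 * (M 2 0 * M 3 2 - M 2 2 * M 3 0))
    + M 0 2 * (M 1 0 * (M 2 1 * M 3 3 - M 2 3 * M 3 1) - M 1 1 * (M 2 0 * M 3 3 - M 2 3 * M 3 0)
      + M 1 3 * (M 2 0 * M 3 1 - M 2 1 * M 3 0))
    - M 0 3 * (M 1 0 * (M 2 1 * M 3 2 - M 2 2 * M 3 1) - M 1 1 * (M 2 0 * M 3 2 - M 2 2 * M 3 0)
      + M 1 2 * (M 2 0 * M 3 1 - M 2 1 * M 3 0)) := by
  rw [Matrix.det_succ_row_zero]
  simp [Fin.sum_univ_succ, Matrix.det_fin_three, Matrix.submatrix, Fin.succAbove]
  ring

theorem wed_J (M : Matrix (Fin 4) (Fin 4) ℤ) (z : ℂ × ℂ) :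
    (wed M 0 z * conj (wed M 5 z)).re - (wed M 1 z * conj (wed M 4 z)).re
      + (wed M 2 z * conj (wed M 3 z)).re = 32 * M.det * (z.1.re * z.2.re) := by
  rw [det_expand]
  simp only [wed, pr, cA, cB]
  simp only [Matrix.cons_val]
  simp only [mul_re, mul_im, sub_re, sub_im, add_re, add_im, conj_re, conj_im, I_re, I_im,
    intCast_re, intCast_im, re_ofNat, im_ofNat]
  push_cast
  ring

theorem trJ_reg (hl : Good l) (t : Term l) : trJ t.reg =
    32 * t.n * t.M.det * ∫ z : ℂ × ℂ, t.lg z / (‖pol l z.1‖ * ‖pol l z.2‖) * (z.1.re * z.2.re) := by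
  have i := reg_re_int hl t
  have h : ∀ z : ℂ × ℂ, t.lg z / (‖pol l z.1‖ * ‖pol l z.2‖) * (z.1.re * z.2.re) * (32 * t.M.det)
      = (t.lg z / (‖pol l z.1‖ * ‖pol l z.2‖) * (wed t.M 0 z * conj (wed t.M 5 z)).re
        - t.lg z / (‖pol l z.1‖ * ‖pol l z.2‖) * (wed t.M 1 z * conj (wed t.M 4 z)).re)
        + t.lg z / (‖pol l z.1‖ * ‖pol l z.2‖) * (wed t.M 2 z * conj (wed t.M 3 z)).re := by
    intro z
    rw [← mul_sub, ← mul_add, wed_J]
    ring
  have i2 : Integrable fun z : ℂ × ℂ =>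
      t.lg z / (‖pol l z.1‖ * ‖pol l z.2‖) * (wed t.M 0 z * conj (wed t.M 5 z)).re
        - t.lg z / (‖pol l z.1‖ * ‖pol l z.2‖) * (wed t.M 1 z * conj (wed t.M 4 z)).re :=
    (i 0 5).sub (i 1 4)
  have h2 : (∫ z : ℂ × ℂ, t.lg z / (‖pol l z.1‖ * ‖pol l z.2‖) * (z.1.re * z.2.re)) * (32 * t.M.det)
      = _ := (integral_mul_const (μ := volume) (32 * (t.M.det : ℝ)) (fun z : ℂ × ℂ =>
        t.lg z / (‖pol l z.1‖ * ‖pol l z.2‖) * (z.1.re * z.2.re))).symm
  simp_rw [h] at h2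
  rw [integral_add i2 (i 2 3), integral_sub (i 0 5) (i 1 4)] at h2
  unfold trJ
  rw [reg_re hl, reg_re hl, reg_re hl]
  linear_combination (-(t.n : ℝ)) * h2

theorem rho_prod_int (hl : Good l) :
    Integrable fun z : ℂ × ℂ => Real.log ‖z.1 - z.2‖ * (rho l z.1 * rho l z.2) := by
  refine (int_log2 hl).norm.mono' ?_ (Filter.Eventually.of_forall fun z => ?_)
  · refine Measurable.aestronglyMeasurable ?_
    have h1 : Measurable fun z : ℂ × ℂ => Real.log ‖z.1 - z.2‖ := by fun_prop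
    exact h1.mul (((rho_meas l).comp measurable_fst).mul ((rho_meas l).comp measurable_snd))
  · simp only [norm_mul]
    refine mul_le_mul_of_nonneg_left ?_ (norm_nonneg _)
    have h : ∀ u, ‖rho l u‖ ≤ ‖wt l u‖ := fun u => by
      rw [Real.norm_eq_abs, Real.norm_of_nonneg (wt_nn l _)]
      exact rho_le l _
    exact mul_le_mul (h _) (h _) (norm_nonneg _) (norm_nonneg _)

theorem par_lg (n : ℤ) (M : Matrix (Fin 4) (Fin 4) ℤ) (τ : Fin 4 → E l) (z : ℂ × ℂ) :
    (par l n M τ).lg z = 2 * Real.log ‖z.1 - z.2‖ - Real.log ‖z.1 - 1‖ - Real.log ‖z.1 - (-1)‖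
      - Real.log ‖z.2 - 1‖ - Real.log ‖z.2 - (-1)‖ := by
  simp only [Term.lg, par, fA]
  rw [Finsupp.sum_add_index' (by simp) (by intros; push_cast; ring),
    Finsupp.sum_single_index (by simp), Finsupp.sum_single_index (by simp),
    Finsupp.sum_add_index' (by simp) (by intros; push_cast; ring),
    Finsupp.sum_single_index (by simp), Finsupp.sum_single_index (by simp)]
  simp
  ring

theorem int_five {A B C D F : ℂ × ℂ → ℝ} (hA : Integrable A) (hB : Integrable B)
    (hC : Integrable C) (hD : Integrable D) (hF : Integrable F) :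
    ∫ z, (A z - B z - C z - D z - F z) = (∫ z, A z) - (∫ z, B z) - (∫ z, C z) - (∫ z, D z)
      - ∫ z, F z := by
  have h1 : Integrable fun z => A z - B z := hA.sub hB
  have h2 : Integrable fun z => A z - B z - C z := h1.sub hC
  have h3 : Integrable fun z => A z - B z - C z - D z := h2.sub hD
  rw [integral_sub h3 hF, integral_sub h2 hD, integral_sub h1 hC, integral_sub hA hB]

theorem par_int (hl : Good l) (n : ℤ) (M : Matrix (Fin 4) (Fin 4) ℤ) (τ : Fin 4 → E l) :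
    ∫ z : ℂ × ℂ, (par l n M τ).lg z / (‖pol l z.1‖ * ‖pol l z.2‖) * (z.1.re * z.2.re)
      = 2 * ∫ z : ℂ × ℂ, Real.log ‖z.1 - z.2‖ * (rho l z.1 * rho l z.2) := by
  have e : ∀ z : ℂ × ℂ, (par l n M τ).lg z / (‖pol l z.1‖ * ‖pol l z.2‖) * (z.1.re * z.2.re)
      = (((2 * (Real.log ‖z.1 - z.2‖ * (rho l z.1 * rho l z.2))
        - (Real.log ‖z.1 - 1‖ * rho l z.1) * rho l z.2)
        - (Real.log ‖z.1 - (-1)‖ * rho l z.1) * rho l z.2)
        - rho l z.1 * (Real.log ‖z.2 - 1‖ * rho l z.2))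
        - rho l z.1 * (Real.log ‖z.2 - (-1)‖ * rho l z.2) := by
    intro z
    rw [par_lg]
    simp only [rho]
    ring
  simp_rw [e]
  have i0 := (rho_prod_int hl).const_mul 2
  have i1 := (log_rho_int hl 1).mul_prod (rho_int hl)
  have i2 := (log_rho_int hl (-1)).mul_prod (rho_int hl)
  have i3 := (rho_int hl).mul_prod (log_rho_int hl 1)
  have i4 := (rho_int hl).mul_prod (log_rho_int hl (-1))
  have z1 : ∀ a : ℂ, ∫ z : ℂ × ℂ, (Real.log ‖z.1 - a‖ * rho l z.1) * rho l z.2 = 0 := fun a => by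
    have := integral_prod_mul (μ := (volume : Measure ℂ)) (ν := (volume : Measure ℂ))
      (fun u : ℂ => Real.log ‖u - a‖ * rho l u) (rho l)
    rw [rho_zero, mul_zero] at this
    exact this
  have z2 : ∀ a : ℂ, ∫ z : ℂ × ℂ, rho l z.1 * (Real.log ‖z.2 - a‖ * rho l z.2) = 0 := fun a => by
    have := integral_prod_mul (μ := (volume : Measure ℂ)) (ν := (volume : Measure ℂ))
      (rho l) (fun u : ℂ => Real.log ‖u - a‖ * rho l u)
    rw [rho_zero, zero_mul] at this
    exact this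
  rw [int_five i0 i1 i2 i3 i4, z1, z1, z2, z2, integral_const_mul]
  ring

theorem trJ_add (G H : Matrix (Fin 6) (Fin 6) ℂ) : trJ (G + H) = trJ G + trJ H := by
  simp only [trJ, Matrix.add_apply, add_re]
  ring

theorem trJ_Xi (hl : Good l) : trJ (reg (Xi l)) ≠ 0 := by
  have h0 : reg (Xi l) = (par l 1 M1 0).reg + ((par l 2 1 (fun _ => pt l 1 0)).reg
      + ((par l (-1) M3 0).reg + (par l (-1) M4 0).reg)) := by
    simp [reg, Xi]
  obtain ⟨u, hu, hp⟩ := exists_real l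
  have hE := energy_neg (rho_meas l) (rho_int hl) (rho_zero l) (rho_prod_int hl) (u0 := u)
    (by
      unfold rho
      exact (continuous_re.continuousAt).div ((pol_cont l).norm.continuousAt)
        (norm_ne_zero_iff.mpr hp))
    (by
      unfold rho
      exact div_ne_zero (by simpa using (by linarith : u ≠ 0)) (norm_ne_zero_iff.mpr hp))
  have d1 : M1.det = 4 := by rw [det_expand]; simp [M1]
  have d3 : M3.det = 0 := by rw [det_expand]; simp [M3]
  have d4 : M4.det = 0 := by rw [det_expand]; simp [M4]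
  rw [h0, trJ_add, trJ_add, trJ_add, trJ_reg hl, trJ_reg hl, trJ_reg hl, trJ_reg hl, par_int hl,
    par_int hl, par_int hl, par_int hl]
  have e1 : (par l 1 M1 0).M.det = 4 := d1
  have e2 : (par l 2 1 (fun _ => pt l 1 0)).M.det = 1 := Matrix.det_one
  have e3 : (par l (-1) M3 0).M.det = 0 := d3
  have e4 : (par l (-1) M4 0).M.det = 0 := d4
  rw [e1, e2, e3, e4]
  have n1 : (par l 1 M1 0).n = 1 := rfl
  have n2 : (par l 2 1 (fun _ => pt l 1 0)).n = 2 := rfl
  rw [n1, n2]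
  push_cast
  intro h
  nlinarith

theorem term_herm (t : Term l) (a b : Fin 6) : conj (t.reg b a) = t.reg a b := by
  unfold Term.reg
  rw [map_mul, ← integral_conj]
  congr 1
  · simp
  · refine integral_congr_ae (Filter.Eventually.of_forall fun z => ?_)
    simp only [map_mul, conj_conj, conj_ofReal]
    ring

theorem reg_herm (ξ : List (Term l)) : (reg ξ).IsHermitian := by
  induction ξ with
  | nil => simp [reg]
  | cons t ξ ih =>
    have : reg (t :: ξ) = t.reg + reg ξ := by simp [reg]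
    rw [this]
    refine Matrix.IsHermitian.add ?_ ih
    refine Matrix.ext fun a b => ?_
    exact term_herm t a b

end Pool.Agent.Helper14.EP
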