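import Pool.Agent.Helper14.EP.MOM
import Pool.Agent.Helper14.EP.TRJ
import Pool.Agent.Helper14.EP.ALG
import Pool.Agent.Helper14.EP.SPN
import Pool.Agent.Helper14.EP.CYC

noncomputable section

open Complex MeasureTheory ComplexConjugate

namespace Pool.Agent.Helper14.EP

variable {l : ℂ}

theorem reg_single (t : Term l) : reg [t] = t.reg := by simp [reg]

theorem main (hl : Good l) (H : Matrix (Fin 6) (Fin 6) ℂ) (hH : H.IsHermitian) (ε : ℝ)
    (hε : 0 < ε) : ∃ (m : ℕ) (ξ : List (Term l)), 0 < m ∧ IsCycle ξ ∧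
      ∀ a b, ‖(m : ℂ)⁻¹ * reg ξ a b - H a b‖ < ε := by
  obtain ⟨V, hV, hV2⟩ := exists_sub l
  refine hV2 H ?_ ε hε
  have hK := KK_pos hl
  have h1 : ∀ a b : Fin 4 → ℤ, (fun p q => ((w2 a b p * w2 a b q : ℝ) : ℂ)) ∈ V := by
    intro a b
    have h := hV _ (cyc_cst (l := l) a b (16 * KK l ^ 2)⁻¹)
    rw [reg_single, reg_cst hl] at h
    have e : (fun p q => ((16 * KK l ^ 2 * (16 * KK l ^ 2)⁻¹ * (w2 a b p * w2 a b q) : ℝ) : ℂ))
        = (fun p q => ((w2 a b p * w2 a b q : ℝ) : ℂ)) := by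
      funext p q
      rw [mul_inv_cancel₀ (by positivity), one_mul]
    rwa [e] at h
  have hadd : ∀ a b c : Fin 4 → ℤ, ∀ p, w2 (a + b) c p = w2 a c p + w2 b c p := by
    intro a b c p
    simp only [w2, Pi.add_apply]; push_cast; ring
  refine span_crit V h1 ?_ ⟨reg (Xi l), hV _ cyc_Xi, reg_herm _, trJ_Xi hl⟩ H hH
  intro m1 m2 m3
  obtain ⟨x, y, z, w, hw, h⟩ := reg_sgt hl
  have h2 := hV _ (cyc_sgt (l := l) m1 m2 m3)
  rw [reg_single] at h2
  have h3 := V.smul_mem w⁻¹ (V.sub_mem (V.sub_mem (V.sub_mem h2 (V.smul_mem (x - z) (h1 m1 m3)))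
    (V.smul_mem (y - z) (h1 m2 m3))) (V.smul_mem z (h1 (m1 + m2) m3)))
  refine (congrArg (fun G => G ∈ V) ?_).mp h3
  refine Matrix.ext fun p q => ?_
  simp only [Matrix.sub_apply, Matrix.smul_apply, hadd, real_smul, h]
  push_cast
  have hw' : (w : ℂ) ≠ 0 := by exact_mod_cast hw
  field_simp
  ring

end Pool.Agent.Helper14.EP
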