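import Pool.Agent.Helper14.EP.Base
import Pool.Agent.Helper63.HF.INT

/-! Module INT (helper87): integrability of the weight against logarithms. -/

noncomputable section

open Complex MeasureTheory ComplexConjugate

namespace Pool.Agent.Helper14.EP

variable {l : ℂ}

namespace IntAux

open Pool.Agent.Helper63.HF (INT_rad INT_sep INT_log)

lemma comp_rpow {a b C γ : ℝ} (ha : 0 < a) (hb : 0 < b) (hC : 1 ≤ C) (hab : a ≤ C * b)
    (hba : b ≤ C * a) : a ^ γ ≤ C ^ |γ| * b ^ γ := by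
  have hC0 : 0 < C := by linarith
  rcases le_total 0 γ with h | h
  · rw [abs_of_nonneg h, ← Real.mul_rpow hC0.le hb.le]
    exact Real.rpow_le_rpow ha.le hab h
  · rw [abs_of_nonpos h]
    have h1 : (b / C) ^ γ = C ^ (-γ) * b ^ γ := by
      rw [Real.div_rpow hb.le hC0.le, Real.rpow_neg hC0.le, div_eq_mul_inv, mul_comm]
    rw [← h1]
    refine Real.rpow_le_rpow_of_nonpos (by positivity) ?_ h
    rw [div_le_iff₀ hC0]
    linarith

lemma md_int {γ β : ℝ} (hβ : β < 2) (hγ : γ - β < -2) (ζ : ℂ) :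
    Integrable (fun y : ℂ => (1 + ‖y‖) ^ γ * ‖y - ζ‖ ^ (-β)) := by
  have h1 := ((INT_rad hβ hγ).comp_sub_right ζ).const_mul ((1 + ‖ζ‖) ^ |γ|)
  refine Integrable.mono' h1 ?_ (Filter.Eventually.of_forall fun y => ?_)
  · exact (((measurable_const.add measurable_norm).pow_const γ).mul
      (((measurable_id.sub_const ζ).norm).pow_const (-β))).aestronglyMeasurable
  · rw [Real.norm_of_nonneg (by positivity), ← mul_assoc]
    refine mul_le_mul_of_nonneg_right ?_ (by positivity)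
    have h2 : ‖y‖ ≤ ‖y - ζ‖ + ‖ζ‖ := by
      calc ‖y‖ = ‖(y - ζ) + ζ‖ := by rw [sub_add_cancel]
        _ ≤ _ := norm_add_le _ _
    have h3 : ‖y - ζ‖ ≤ ‖y‖ + ‖ζ‖ := norm_sub_le _ _
    have h4 := norm_nonneg (y - ζ)
    have h5 := norm_nonneg y
    have h6 := norm_nonneg ζ
    refine comp_rpow (by linarith) (by linarith) (by linarith) ?_ ?_
    · nlinarith [mul_nonneg h6 h4]
    · nlinarith [mul_nonneg h6 h5]

lemma near (S : Finset ℂ) (hne : S.Nonempty) : ∃ c : ℝ, 0 < c ∧ ∀ y : ℂ,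
    ∃ ζ ∈ S, (c * (1 + ‖y‖)) ^ (S.card - 1) * ‖y - ζ‖ ≤ ∏ ρ ∈ S, ‖y - ρ‖ := by
  classical
  obtain ⟨δ, hδ, hδ1, hsep⟩ := INT_sep S
  obtain ⟨R, hR1, hR⟩ : ∃ R : ℝ, 1 ≤ R ∧ ∀ ρ ∈ S, ‖ρ‖ ≤ R := by
    refine ⟨1 + ∑ ρ ∈ S, ‖ρ‖, ?_, fun ρ hρ => ?_⟩
    · have : 0 ≤ ∑ ρ ∈ S, ‖ρ‖ := Finset.sum_nonneg fun _ _ => norm_nonneg _
      linarith
    · have := Finset.single_le_sum (f := fun ρ : ℂ => ‖ρ‖) (fun _ _ => norm_nonneg _) hρ
      linarith
  refine ⟨δ / (2 * (1 + 2 * R)), by positivity, fun y => ?_⟩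
  obtain ⟨ζ, hζ, hmin⟩ := Finset.exists_min_image S (fun ρ => ‖y - ρ‖) hne
  refine ⟨ζ, hζ, ?_⟩
  rw [← Finset.prod_erase_mul S _ hζ]
  refine mul_le_mul_of_nonneg_right ?_ (norm_nonneg _)
  rw [← Finset.card_erase_of_mem hζ, ← Finset.prod_const]
  refine Finset.prod_le_prod (fun _ _ => by positivity) (fun ρ hρ => ?_)
  obtain ⟨hρne, hρS⟩ := Finset.mem_erase.1 hρ
  have h1 : δ ≤ ‖ρ - ζ‖ := hsep ρ hρS ζ hζ hρne
  have h2 : ‖ρ - ζ‖ ≤ ‖y - ρ‖ + ‖y - ζ‖ := by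
    calc ‖ρ - ζ‖ = ‖(y - ζ) - (y - ρ)‖ := by congr 1; ring
      _ ≤ ‖y - ζ‖ + ‖y - ρ‖ := norm_sub_le _ _
      _ = _ := add_comm _ _
  have h3 := hmin ρ hρS
  have h4 : ‖y‖ ≤ ‖y - ρ‖ + R := by
    calc ‖y‖ = ‖(y - ρ) + ρ‖ := by rw [sub_add_cancel]
      _ ≤ ‖y - ρ‖ + ‖ρ‖ := norm_add_le _ _
      _ ≤ _ := by linarith [hR ρ hρS]
  have h5 := norm_nonneg y
  rw [div_mul_eq_mul_div, div_le_iff₀ (by positivity)]
  rcases le_total ‖y‖ (2 * R) with h | h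
  · have e1 : δ * (1 + ‖y‖) ≤ δ * (1 + 2 * R) := by nlinarith
    have e2 : δ ≤ 2 * ‖y - ρ‖ := by linarith
    calc δ * (1 + ‖y‖) ≤ δ * (1 + 2 * R) := e1
      _ ≤ 2 * ‖y - ρ‖ * (1 + 2 * R) := mul_le_mul_of_nonneg_right e2 (by positivity)
      _ = _ := by ring
  · have e1 : ‖y‖ / 2 ≤ ‖y - ρ‖ := by linarith
    have e2 : δ * (1 + ‖y‖) ≤ 1 * (1 + ‖y‖) := mul_le_mul_of_nonneg_right hδ1 (by positivity)
    have e3 : 1 + ‖y‖ ≤ ‖y‖ / 2 * (2 * (1 + 2 * R)) := by nlinarith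
    have e4 : ‖y‖ / 2 * (2 * (1 + 2 * R)) ≤ ‖y - ρ‖ * (2 * (1 + 2 * R)) :=
      mul_le_mul_of_nonneg_right e1 (by positivity)
    linarith

/-- the six roots -/
lemma roots (hl : Good l) : ∃ S : Finset ℂ, S.card = 6 ∧
    ∀ u, ‖pol l u‖ = ∏ ρ ∈ S, ‖u - ρ‖ := by
  classical
  obtain ⟨h0, h1, h2⟩ := hl
  obtain ⟨r, hr⟩ := IsAlgClosed.exists_pow_nat_eq l (n := 2) (by norm_num)
  have r0 : r ≠ 0 := by rintro rfl; exact h0 (by rw [← hr]; ring)
  have r1 : r ≠ 1 := by rintro rfl; exact h1 (by rw [← hr]; ring)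
  have r2 : r ≠ -1 := by rintro rfl; exact h1 (by rw [← hr]; ring)
  have hsq : ∀ x y : ℂ, x = y → x ^ 2 = y ^ 2 := fun x y h => by rw [h]
  have i1 : r⁻¹ ≠ 1 := fun h => r1 (inv_eq_one.1 h)
  have i2 : r⁻¹ ≠ -1 := fun h => r2 (by rw [← inv_inv r, h]; norm_num)
  have n0 : r ≠ -r := fun h => r0 (by
    have : 2 * r = 0 := by linear_combination h
    simpa using this)
  have hl2 : l ^ 2 ≠ 1 := by
    intro h
    have : (l - 1) * (l + 1) = 0 := by linear_combination h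
    rcases mul_eq_zero.1 this with h | h
    · exact h1 (by linear_combination h)
    · exact h2 (by linear_combination h)
  have n1 : r ≠ r⁻¹ := fun h => hl2 (by
    have e : r * r = 1 := by
      nth_rewrite 2 [h]; exact mul_inv_cancel₀ r0
    rw [← hr]; linear_combination (r * r + 1) * e)
  have n2 : r ≠ -r⁻¹ := fun h => hl2 (by
    have e : r * r = -1 := by
      nth_rewrite 2 [h]; rw [mul_neg, mul_inv_cancel₀ r0]
    rw [← hr]; linear_combination (r * r - 1) * e)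
  have n3 : r⁻¹ ≠ -r⁻¹ := fun h => n0 (by
    have := congrArg (fun x => x⁻¹) h
    simpa [inv_neg] using this)
  have n4 : (1 : ℂ) ≠ -1 := by norm_num
  have m1 : (1 : ℂ) ∉ ({-1, r, -r, r⁻¹, -r⁻¹} : Finset ℂ) := by
    simp only [Finset.mem_insert, Finset.mem_singleton, not_or]
    refine ⟨n4, r1.symm, fun h => r2 ?_, i1.symm, fun h => i2 ?_⟩
    · linear_combination h
    · linear_combination h
  have m2 : (-1 : ℂ) ∉ ({r, -r, r⁻¹, -r⁻¹} : Finset ℂ) := by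
    simp only [Finset.mem_insert, Finset.mem_singleton, not_or]
    refine ⟨r2.symm, fun h => r1 ?_, i2.symm, fun h => i1 ?_⟩
    · linear_combination h
    · linear_combination h
  have m3 : r ∉ ({-r, r⁻¹, -r⁻¹} : Finset ℂ) := by
    simp only [Finset.mem_insert, Finset.mem_singleton, not_or]
    exact ⟨n0, n1, n2⟩
  have m4 : -r ∉ ({r⁻¹, -r⁻¹} : Finset ℂ) := by
    simp only [Finset.mem_insert, Finset.mem_singleton, not_or]
    refine ⟨fun h => n2 ?_, fun h => n1 ?_⟩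
    · linear_combination -h
    · linear_combination -h
  have m5 : r⁻¹ ∉ ({-r⁻¹} : Finset ℂ) := by
    simpa only [Finset.mem_singleton] using n3
  refine ⟨{1, -1, r, -r, r⁻¹, -r⁻¹}, ?_, fun u => ?_⟩
  · rw [Finset.card_insert_of_notMem m1, Finset.card_insert_of_notMem m2,
      Finset.card_insert_of_notMem m3, Finset.card_insert_of_notMem m4,
      Finset.card_insert_of_notMem m5, Finset.card_singleton]
  · rw [Finset.prod_insert m1, Finset.prod_insert m2, Finset.prod_insert m3, Finset.prod_insert m4,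
      Finset.prod_insert m5, Finset.prod_singleton, ← norm_mul, ← norm_mul, ← norm_mul,
      ← norm_mul, ← norm_mul]
    congr 1
    rw [pol, ← hr]
    have e : (r ^ 2)⁻¹ = r⁻¹ * r⁻¹ := by rw [pow_two, mul_inv]
    rw [e]
    ring

lemma wt_nonneg (u : ℂ) : 0 ≤ wt l u := by unfold wt; positivity

lemma wt_meas : Measurable (wt l) := by
  unfold wt pol
  fun_prop

lemma wt_le (hl : Good l) : ∃ (S : Finset ℂ) (D : ℝ), 0 ≤ D ∧ ∀ u, wt l u ≤
    D * ∑ ζ ∈ S, (1 + ‖u‖) ^ (-3 : ℝ) * ‖u - ζ‖ ^ (-(1 : ℝ)) := by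
  obtain ⟨S, hS, hpol⟩ := roots hl
  obtain ⟨c, hc, hnear⟩ := near S (by rw [← Finset.card_pos, hS]; norm_num)
  refine ⟨S, (c ^ 5)⁻¹, by positivity, fun u => ?_⟩
  obtain ⟨ζ, hζ, hle⟩ := hnear u
  rw [hS, ← hpol, show (6 : ℕ) - 1 = 5 from rfl] at hle
  have h1 : wt l u ≤ (c ^ 5)⁻¹ * ((1 + ‖u‖) ^ (-3 : ℝ) * ‖u - ζ‖ ^ (-(1 : ℝ))) := by
    rcases eq_or_lt_of_le (norm_nonneg (u - ζ)) with h0 | h0
    · have hp : ‖pol l u‖ = 0 := by
        rw [hpol]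
        exact Finset.prod_eq_zero hζ h0.symm
      unfold wt
      rw [hp, div_zero]
      positivity
    · have hu : 0 < 1 + ‖u‖ := by positivity
      have e3 : (1 + ‖u‖) ^ (-3 : ℝ) = ((1 + ‖u‖) ^ 3)⁻¹ := by
        rw [Real.rpow_neg hu.le]
        congr 1
        exact_mod_cast Real.rpow_natCast (1 + ‖u‖) 3
      rw [e3, Real.rpow_neg_one]
      have hden : 0 < (c * (1 + ‖u‖)) ^ 5 * ‖u - ζ‖ := by positivity
      unfold wt
      calc (1 + ‖u‖ ^ 2) / ‖pol l u‖ ≤ (1 + ‖u‖) ^ 2 / ((c * (1 + ‖u‖)) ^ 5 * ‖u - ζ‖) := by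
            refine div_le_div₀ (by positivity) ?_ hden hle
            nlinarith [norm_nonneg u]
        _ = (c ^ 5)⁻¹ * (((1 + ‖u‖) ^ 3)⁻¹ * ‖u - ζ‖⁻¹) := by
            field_simp
  refine h1.trans (mul_le_mul_of_nonneg_left ?_ (by positivity))
  exact Finset.single_le_sum (f := fun ζ => (1 + ‖u‖) ^ (-3 : ℝ) * ‖u - ζ‖ ^ (-(1 : ℝ)))
    (fun _ _ => by positivity) hζ

lemma young {x y : ℝ} (hx : 0 ≤ x) (hy : 0 ≤ y) :
    x ^ (-(1 / 4) : ℝ) * y ^ (-(1 : ℝ)) ≤ x ^ (-(5 / 4) : ℝ) + y ^ (-(5 / 4) : ℝ) := by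
  rcases eq_or_lt_of_le hx with rfl | hx
  · rw [Real.zero_rpow (by norm_num), zero_mul]; positivity
  rcases eq_or_lt_of_le hy with rfl | hy
  · rw [Real.zero_rpow (x := -(1 : ℝ)) (by norm_num), mul_zero]; positivity
  have e : ∀ z : ℝ, 0 < z → z ^ (-(1 / 4) : ℝ) * z ^ (-(1 : ℝ)) = z ^ (-(5 / 4) : ℝ) := by
    intro z hz
    rw [← Real.rpow_add hz]; norm_num
  rcases le_total x y with h | h
  · have h1 : y ^ (-(1 : ℝ)) ≤ x ^ (-(1 : ℝ)) :=
      Real.rpow_le_rpow_of_nonpos hx h (by norm_num)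
    calc x ^ (-(1 / 4) : ℝ) * y ^ (-(1 : ℝ)) ≤ x ^ (-(1 / 4) : ℝ) * x ^ (-(1 : ℝ)) :=
          mul_le_mul_of_nonneg_left h1 (by positivity)
      _ = x ^ (-(5 / 4) : ℝ) := e x hx
      _ ≤ _ := le_add_of_nonneg_right (by positivity)
  · have h1 : x ^ (-(1 / 4) : ℝ) ≤ y ^ (-(1 / 4) : ℝ) :=
      Real.rpow_le_rpow_of_nonpos hy h (by norm_num)
    calc x ^ (-(1 / 4) : ℝ) * y ^ (-(1 : ℝ)) ≤ y ^ (-(1 / 4) : ℝ) * y ^ (-(1 : ℝ)) :=
          mul_le_mul_of_nonneg_right h1 (by positivity)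
      _ = y ^ (-(5 / 4) : ℝ) := e y hy
      _ ≤ _ := le_add_of_nonneg_left (by positivity)

/-- the weight times a growing factor -/
lemma int_grow (hl : Good l) : Integrable fun u => (1 + ‖u‖) ^ (1 / 4 : ℝ) * wt l u := by
  obtain ⟨S, D, hD, hle⟩ := wt_le hl
  have hmaj : Integrable (fun u : ℂ => D * ∑ ζ ∈ S, (1 + ‖u‖) ^ (-(11 / 4) : ℝ) *
      ‖u - ζ‖ ^ (-(1 : ℝ))) :=
    (integrable_finsetSum _ fun ζ _ => md_int (by norm_num) (by norm_num) ζ).const_mul D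
  refine Integrable.mono' hmaj ?_ (Filter.Eventually.of_forall fun u => ?_)
  · exact (((measurable_const.add measurable_norm).pow_const _).mul wt_meas).aestronglyMeasurable
  · rw [Real.norm_of_nonneg (mul_nonneg (by positivity) (wt_nonneg u))]
    refine (mul_le_mul_of_nonneg_left (hle u) (by positivity)).trans (le_of_eq ?_)
    rw [← mul_assoc, mul_comm _ D, mul_assoc, Finset.mul_sum]
    congr 1
    refine Finset.sum_congr rfl fun ζ _ => ?_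
    rw [← mul_assoc, ← Real.rpow_add (by positivity)]
    norm_num

/-- the weight with a mild singularity: pointwise bound -/
lemma sing_le (hl : Good l) : ∃ (S : Finset ℂ) (D : ℝ), 0 ≤ D ∧ ∀ u a : ℂ,
    ‖u - a‖ ^ (-(1 / 4) : ℝ) * wt l u ≤ D * ∑ ζ ∈ S,
      ((1 + ‖u‖) ^ (-3 : ℝ) * ‖u - a‖ ^ (-(5 / 4) : ℝ) +
        (1 + ‖u‖) ^ (-3 : ℝ) * ‖u - ζ‖ ^ (-(5 / 4) : ℝ)) := by
  obtain ⟨S, D, hD, hle⟩ := wt_le hl
  refine ⟨S, D, hD, fun u a => ?_⟩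
  refine (mul_le_mul_of_nonneg_left (hle u) (by positivity)).trans ?_
  rw [← mul_assoc, mul_comm _ D, mul_assoc, Finset.mul_sum]
  refine mul_le_mul_of_nonneg_left (Finset.sum_le_sum fun ζ _ => ?_) hD
  have := young (norm_nonneg (u - a)) (norm_nonneg (u - ζ))
  calc ‖u - a‖ ^ (-(1 / 4) : ℝ) * ((1 + ‖u‖) ^ (-3 : ℝ) * ‖u - ζ‖ ^ (-(1 : ℝ)))
      = (1 + ‖u‖) ^ (-3 : ℝ) * (‖u - a‖ ^ (-(1 / 4) : ℝ) * ‖u - ζ‖ ^ (-(1 : ℝ))) := by ring
    _ ≤ (1 + ‖u‖) ^ (-3 : ℝ) * (‖u - a‖ ^ (-(5 / 4) : ℝ) + ‖u - ζ‖ ^ (-(5 / 4) : ℝ)) :=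
        mul_le_mul_of_nonneg_left this (by positivity)
    _ = _ := by ring

lemma int_sing (hl : Good l) (a : ℂ) :
    Integrable fun u => ‖u - a‖ ^ (-(1 / 4) : ℝ) * wt l u := by
  obtain ⟨S, D, hD, hle⟩ := sing_le hl
  have hmaj : Integrable (fun u : ℂ => D * ∑ ζ ∈ S,
      ((1 + ‖u‖) ^ (-3 : ℝ) * ‖u - a‖ ^ (-(5 / 4) : ℝ) +
        (1 + ‖u‖) ^ (-3 : ℝ) * ‖u - ζ‖ ^ (-(5 / 4) : ℝ))) :=
    (integrable_finsetSum _ fun ζ _ => (md_int (by norm_num) (by norm_num) a).add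
      (md_int (by norm_num) (by norm_num) ζ)).const_mul D
  refine Integrable.mono' hmaj ?_ (Filter.Eventually.of_forall fun u => ?_)
  · exact ((((measurable_id.sub_const a).norm).pow_const _).mul wt_meas).aestronglyMeasurable
  · rw [Real.norm_of_nonneg (mul_nonneg (by positivity) (wt_nonneg u))]
    exact hle u a

/-- bound for the logarithm -/
lemma log_le (u a : ℂ) : |Real.log ‖u - a‖| ≤
    4 * ((1 + ‖u‖) ^ (1 / 4 : ℝ) * (1 + ‖a‖) ^ (1 / 4 : ℝ) + ‖u - a‖ ^ (-(1 / 4) : ℝ)) := by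
  rcases eq_or_lt_of_le (norm_nonneg (u - a)) with h0 | h0
  · rw [← h0, Real.log_zero, abs_zero]; positivity
  have h1 := INT_log h0 (show (0 : ℝ) < 1 / 4 by norm_num)
  have h2 : ‖u - a‖ ^ (1 / 4 : ℝ) ≤ (1 + ‖u‖) ^ (1 / 4 : ℝ) * (1 + ‖a‖) ^ (1 / 4 : ℝ) := by
    rw [← Real.mul_rpow (by positivity) (by positivity)]
    refine Real.rpow_le_rpow h0.le ?_ (by norm_num)
    have := norm_sub_le u a
    nlinarith [norm_nonneg u, norm_nonneg a, mul_nonneg (norm_nonneg u) (norm_nonneg a)]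
  have e : (‖u - a‖ ^ (1 / 4 : ℝ) + ‖u - a‖ ^ (-(1 / 4) : ℝ)) / (1 / 4) =
      4 * (‖u - a‖ ^ (1 / 4 : ℝ) + ‖u - a‖ ^ (-(1 / 4) : ℝ)) := by ring
  rw [e] at h1
  linarith

/-- the main estimate in two variables -/
lemma int_sing2 (hl : Good l) : Integrable fun z : ℂ × ℂ =>
    ‖z.1 - z.2‖ ^ (-(1 / 4) : ℝ) * (wt l z.1 * wt l z.2) := by
  obtain ⟨S, D, hD, hle⟩ := sing_le hl
  have hwt : Integrable (wt l) := by
    refine Integrable.mono' (int_grow hl) wt_meas.aestronglyMeasurable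
      (Filter.Eventually.of_forall fun u => ?_)
    rw [Real.norm_of_nonneg (wt_nonneg u)]
    refine le_mul_of_one_le_left (wt_nonneg u) (Real.one_le_rpow ?_ (by norm_num))
    linarith [norm_nonneg u]
  -- the kernel
  have hk : Integrable (fun w : ℂ => (1 + ‖w‖) ^ (-3 : ℝ) * ‖w‖ ^ (-(5 / 4) : ℝ)) :=
    INT_rad (by norm_num) (by norm_num)
  have hconv : Integrable (fun z : ℂ × ℂ => wt l z.2 *
      ((1 + ‖z.1 - z.2‖) ^ (-3 : ℝ) * ‖z.1 - z.2‖ ^ (-(5 / 4) : ℝ))) :=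
    hwt.convolution_integrand (ContinuousLinearMap.mul ℝ ℝ) hk
  have h0 : Integrable (fun z : ℂ × ℂ => (1 + ‖z.1‖) ^ (-3 : ℝ) * wt l z.2) := by
    have e : Integrable (fun y : ℂ => (1 + ‖y‖) ^ (-3 : ℝ)) := by
      have := md_int (γ := -3) (β := 0) (by norm_num) (by norm_num) 0
      simpa using this
    exact e.mul_prod hwt
  have hζ : ∀ ζ : ℂ, Integrable (fun z : ℂ × ℂ =>
      ((1 + ‖z.1‖) ^ (-3 : ℝ) * ‖z.1 - ζ‖ ^ (-(5 / 4) : ℝ)) * wt l z.2) := fun ζ =>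
    (md_int (γ := -3) (β := 5 / 4) (by norm_num) (by norm_num) ζ).mul_prod hwt
  have hmaj : Integrable (fun z : ℂ × ℂ => D * ∑ ζ ∈ S,
      ((1 + ‖z.1‖) ^ (-3 : ℝ) * wt l z.2 + 8 * (wt l z.2 *
      ((1 + ‖z.1 - z.2‖) ^ (-3 : ℝ) * ‖z.1 - z.2‖ ^ (-(5 / 4) : ℝ))) +
      ((1 + ‖z.1‖) ^ (-3 : ℝ) * ‖z.1 - ζ‖ ^ (-(5 / 4) : ℝ)) * wt l z.2)) :=
    (integrable_finsetSum _ fun ζ _ => (h0.add (hconv.const_mul 8)).add (hζ ζ)).const_mul D
  refine Integrable.mono' hmaj ?_ (Filter.Eventually.of_forall fun z => ?_)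
  · exact ((((measurable_fst.sub measurable_snd).norm).pow_const _).mul
      ((wt_meas.comp measurable_fst).mul (wt_meas.comp measurable_snd))).aestronglyMeasurable
  · have w1 := wt_nonneg (l := l) z.1
    have w2 := wt_nonneg (l := l) z.2
    rw [Real.norm_of_nonneg (mul_nonneg (by positivity) (mul_nonneg w1 w2)), ← mul_assoc]
    refine (mul_le_mul_of_nonneg_right (hle z.1 z.2) w2).trans ?_
    rw [mul_assoc, Finset.sum_mul]
    refine mul_le_mul_of_nonneg_left (Finset.sum_le_sum fun ζ _ => ?_) hD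
    rw [add_mul]
    refine add_le_add ?_ le_rfl
    -- the kernel bound
    have key : (1 + ‖z.1‖) ^ (-3 : ℝ) * ‖z.1 - z.2‖ ^ (-(5 / 4) : ℝ) ≤ (1 + ‖z.1‖) ^ (-3 : ℝ) +
        8 * ((1 + ‖z.1 - z.2‖) ^ (-3 : ℝ) * ‖z.1 - z.2‖ ^ (-(5 / 4) : ℝ)) := by
      have g1 : (1 + ‖z.1‖) ^ (-3 : ℝ) ≤ 1 :=
        Real.rpow_le_one_of_one_le_of_nonpos (by linarith [norm_nonneg z.1]) (by norm_num)
      rcases le_total 1 ‖z.1 - z.2‖ with h | h
      · have g2 : ‖z.1 - z.2‖ ^ (-(5 / 4) : ℝ) ≤ 1 :=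
          Real.rpow_le_one_of_one_le_of_nonpos h (by norm_num)
        have g3 : (1 + ‖z.1‖) ^ (-3 : ℝ) * ‖z.1 - z.2‖ ^ (-(5 / 4) : ℝ) ≤
            (1 + ‖z.1‖) ^ (-3 : ℝ) * 1 := mul_le_mul_of_nonneg_left g2 (by positivity)
        have g4 : 0 ≤ 8 * ((1 + ‖z.1 - z.2‖) ^ (-3 : ℝ) * ‖z.1 - z.2‖ ^ (-(5 / 4) : ℝ)) := by
          positivity
        linarith
      · have g2 : 1 ≤ 8 * (1 + ‖z.1 - z.2‖) ^ (-3 : ℝ) := by
          have e1 : (2 : ℝ) ^ (-3 : ℝ) ≤ (1 + ‖z.1 - z.2‖) ^ (-3 : ℝ) :=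
            Real.rpow_le_rpow_of_nonpos (by positivity) (by linarith) (by norm_num)
          have e2 : (2 : ℝ) ^ (-3 : ℝ) = 1 / 8 := by
            rw [Real.rpow_neg (by norm_num)]
            have : (2 : ℝ) ^ (3 : ℝ) = 2 ^ 3 := by exact_mod_cast Real.rpow_natCast 2 3
            rw [this]; norm_num
          rw [e2] at e1
          linarith
        have g3 : (1 + ‖z.1‖) ^ (-3 : ℝ) * ‖z.1 - z.2‖ ^ (-(5 / 4) : ℝ) ≤
            1 * ‖z.1 - z.2‖ ^ (-(5 / 4) : ℝ) := mul_le_mul_of_nonneg_right g1 (by positivity)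
        have g4 : 1 * ‖z.1 - z.2‖ ^ (-(5 / 4) : ℝ) ≤
            8 * (1 + ‖z.1 - z.2‖) ^ (-3 : ℝ) * ‖z.1 - z.2‖ ^ (-(5 / 4) : ℝ) :=
          mul_le_mul_of_nonneg_right g2 (by positivity)
        have g5 : 0 ≤ (1 + ‖z.1‖) ^ (-3 : ℝ) := by positivity
        linarith
    calc _ ≤ ((1 + ‖z.1‖) ^ (-3 : ℝ) + 8 * ((1 + ‖z.1 - z.2‖) ^ (-3 : ℝ) *
          ‖z.1 - z.2‖ ^ (-(5 / 4) : ℝ))) * wt l z.2 := mul_le_mul_of_nonneg_right key w2
      _ = _ := by ring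

end IntAux

open IntAux

theorem int_wt (hl : Good l) : Integrable (wt l) := by
  refine Integrable.mono' (int_grow hl) wt_meas.aestronglyMeasurable
    (Filter.Eventually.of_forall fun u => ?_)
  rw [Real.norm_of_nonneg (wt_nonneg u)]
  refine le_mul_of_one_le_left (wt_nonneg u) (Real.one_le_rpow ?_ (by norm_num))
  linarith [norm_nonneg u]

theorem int_log (hl : Good l) (a : ℂ) : Integrable fun u => Real.log ‖u - a‖ * wt l u := by
  refine Integrable.mono' ((((int_grow hl).mul_const ((1 + ‖a‖) ^ (1 / 4 : ℝ))).add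
    (int_sing hl a)).const_mul 4) ?_ (Filter.Eventually.of_forall fun u => ?_)
  · exact ((Real.measurable_log.comp (measurable_id.sub_const a).norm).mul
      wt_meas).aestronglyMeasurable
  · rw [Real.norm_eq_abs, abs_mul, abs_of_nonneg (wt_nonneg u)]
    refine (mul_le_mul_of_nonneg_right (log_le u a) (wt_nonneg u)).trans (le_of_eq ?_)
    simp only [Pi.add_apply]
    ring

theorem int_log2 (hl : Good l) :
    Integrable fun z : ℂ × ℂ => Real.log ‖z.1 - z.2‖ * (wt l z.1 * wt l z.2) := by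
  refine Integrable.mono' ((((int_grow hl).mul_prod (int_grow hl)).add
    (int_sing2 hl)).const_mul 4) ?_ (Filter.Eventually.of_forall fun z => ?_)
  · exact ((Real.measurable_log.comp (measurable_fst.sub measurable_snd).norm).mul
      ((wt_meas.comp measurable_fst).mul (wt_meas.comp measurable_snd))).aestronglyMeasurable
  · have w := mul_nonneg (wt_nonneg (l := l) z.1) (wt_nonneg (l := l) z.2)
    rw [Real.norm_eq_abs, abs_mul, abs_of_nonneg w]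
    refine (mul_le_mul_of_nonneg_right (log_le z.1 z.2) w).trans (le_of_eq ?_)
    simp only [Pi.add_apply]
    ring

end Pool.Agent.Helper14.EP
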