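import Pool.Agent.Helper14.EP.SGN

/-!
# The regulators of the two simple kinds of terms
-/

noncomputable section

open Complex MeasureTheory ComplexConjugate

namespace Pool.Agent.Helper14.EP

variable {l : ℂ}

theorem log_h_int (hl : Good l) (a : ℂ) {h : ℂ → ℝ} (hc : Measurable h)
    (hb : ∀ u, |h u| ≤ 1 + ‖u‖ ^ 2) :
    Integrable fun u => Real.log ‖u - a‖ * (h u / ‖pol l u‖) :=
  (int_log hl a).norm.mono'
    (((measurable_id.sub_const a).norm.log.mul (hc.div (pol_meas l).norm)).aestronglyMeasurable)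
    (Filter.Eventually.of_forall fun u => by
      rw [norm_mul, norm_mul]
      refine mul_le_mul_of_nonneg_left ?_ (norm_nonneg _)
      rw [Real.norm_eq_abs, Real.norm_of_nonneg (wt_nn l u), abs_div,
        abs_of_nonneg (norm_nonneg (pol l u)), wt]
      exact div_le_div_of_nonneg_right (hb u) (norm_nonneg _))

/-- `log |(u - 1) / (u + 1)|` -/
def Lf (u : ℂ) : ℝ := Real.log ‖u - 1‖ - Real.log ‖u + 1‖

theorem Lf_int (hl : Good l) {h : ℂ → ℝ} (hc : Measurable h) (hb : ∀ u, |h u| ≤ 1 + ‖u‖ ^ 2) :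
    Integrable fun u => Lf u * (h u / ‖pol l u‖) := by
  have h1 := log_h_int hl 1 hc hb
  have h2 := log_h_int hl (-1) hc hb
  simp only [sub_neg_eq_add] at h2
  refine (h1.sub h2).congr (Filter.Eventually.of_forall fun u => ?_)
  simp only [Pi.sub_apply, Lf]
  ring

theorem wed_cst (a b : Fin 4 → ℤ) (p : Fin 6) (z : ℂ × ℂ) :
    wed (mat a 0 b 0) p z = 4 * (z.1 * z.2) * (w2 a b p : ℝ) := by
  simp only [wed, cA, cB, mat, w2]
  simp
  ring

theorem wed_sgt (a b c : Fin 4 → ℤ) (p : Fin 6) (z : ℂ × ℂ) :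
    wed (mat a b c 0) p z = 4 * z.2 * (z.1 * (w2 a c p : ℝ) + I * (w2 b c p : ℝ)) := by
  simp only [wed, cA, cB, mat, w2]
  simp
  ring

theorem int_cplx {X Y : ℂ → ℝ} (hX : Integrable X) (hY : Integrable Y) :
    ∫ u, (((X u : ℝ) : ℂ) + I * ((Y u : ℝ) : ℂ)) = ((∫ u, X u : ℝ) : ℂ) + I * ((∫ u, Y u : ℝ) : ℂ) := by
  have hX' : Integrable fun u => ((X u : ℝ) : ℂ) := hX.ofReal
  have hY' : Integrable fun u => I * ((Y u : ℝ) : ℂ) := hY.ofReal.const_mul I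
  rw [integral_add hX' hY', integral_const_mul, integral_complex_ofReal,
    integral_complex_ofReal]

theorem int_three {X Y Z : ℂ → ℝ} (hX : Integrable X) (hY : Integrable Y) (hZ : Integrable Z)
    (a b c : ℝ) : ∫ u, (X u * a + Y u * b + Z u * c)
      = (∫ u, X u) * a + (∫ u, Y u) * b + (∫ u, Z u) * c := by
  have h1 : Integrable fun u => X u * a + Y u * b := (hX.mul_const a).add (hY.mul_const b)
  rw [integral_add h1 (hZ.mul_const c),
    integral_add (hX.mul_const a) (hY.mul_const b), integral_mul_const, integral_mul_const,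
    integral_mul_const]

theorem reg_cst (_hl : Good l) (a b : Fin 4 → ℤ) (s : ℝ) : (cst l a b s).reg =
    fun p q => ((16 * KK l ^ 2 * s * (w2 a b p * w2 a b q) : ℝ) : ℂ) := by
  funext p q
  have e : ∀ z : ℂ × ℂ, (((cst l a b s).lg z / (‖pol l z.1‖ * ‖pol l z.2‖) : ℝ) : ℂ)
      * (wed (cst l a b s).M p z * conj (wed (cst l a b s).M q z))
      = (((16 * s * (w2 a b p * w2 a b q))
        * ((‖z.1‖ ^ 2 / ‖pol l z.1‖) * (‖z.2‖ ^ 2 / ‖pol l z.2‖)) : ℝ) : ℂ) := by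
    intro z
    have h1 : (cst l a b s).lg z = s := by
      simp [Term.lg, cst]
    have h2 : (cst l a b s).M = mat a 0 b 0 := rfl
    have h3 : wed (mat a 0 b 0) p z * conj (wed (mat a 0 b 0) q z)
        = ((16 * (‖z.1‖ ^ 2 * ‖z.2‖ ^ 2) * (w2 a b p * w2 a b q) : ℝ) : ℂ) := by
      rw [wed_cst, wed_cst]
      simp only [map_mul, conj_ofReal]
      have h4 : (conj (4 : ℂ)) = 4 := by simpa using conj_ofReal 4
      have h5 := mul_conj' z.1
      have h6 := mul_conj' z.2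
      rw [h4]
      push_cast
      rw [← h5, ← h6]
      ring
    rw [h1, h2, h3, ← ofReal_mul]
    congr 1
    ring
  have h0 : ((cst l a b s).n : ℂ) = 1 := by simp [cst]
  unfold Term.reg
  rw [h0, one_mul]
  simp_rw [e]
  rw [integral_complex_ofReal, integral_const_mul]
  have h7 : ∫ z : ℂ × ℂ, (‖z.1‖ ^ 2 / ‖pol l z.1‖) * (‖z.2‖ ^ 2 / ‖pol l z.2‖)
      = KK l * KK l := integral_prod_mul (fun u : ℂ => ‖u‖ ^ 2 / ‖pol l u‖)
        (fun u : ℂ => ‖u‖ ^ 2 / ‖pol l u‖)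
  rw [h7]
  congr 1
  ring

theorem reg_sgt (hl : Good l) : ∃ x y z w : ℝ, w ≠ 0 ∧ ∀ m1 m2 m3 : Fin 4 → ℤ,
    (sgt l m1 m2 m3).reg = fun p q =>
      ((x * (w2 m1 m3 p * w2 m1 m3 q) + y * (w2 m2 m3 p * w2 m2 m3 q)
        + z * (w2 m1 m3 p * w2 m2 m3 q + w2 m2 m3 p * w2 m1 m3 q) : ℝ) : ℂ)
        + I * ((w * (w2 m1 m3 p * w2 m2 m3 q - w2 m2 m3 p * w2 m1 m3 q) : ℝ) : ℂ) := by
  have hK := KK_pos hl
  have hs := sgn_neg hl
  refine ⟨16 * KK l * ∫ u : ℂ, Lf u * (‖u‖ ^ 2 / ‖pol l u‖), 16 * KK l * ∫ u : ℂ, Lf u * (1 / ‖pol l u‖),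
    16 * KK l * ∫ u : ℂ, Lf u * (u.im / ‖pol l u‖), -(16 * KK l * ∫ u : ℂ, Lf u * rho l u), ?_, ?_⟩
  · refine (neg_pos.mpr (mul_neg_of_pos_of_neg (by positivity) hs)).ne'
  intro m1 m2 m3
  funext p q
  obtain ⟨a, ha⟩ : ∃ a, a = w2 m1 m3 p := ⟨_, rfl⟩
  obtain ⟨b, hb⟩ : ∃ b, b = w2 m2 m3 p := ⟨_, rfl⟩
  obtain ⟨a', ha'⟩ : ∃ a, a = w2 m1 m3 q := ⟨_, rfl⟩
  obtain ⟨b', hb'⟩ : ∃ b, b = w2 m2 m3 q := ⟨_, rfl⟩
  have e : ∀ z : ℂ × ℂ, (((sgt l m1 m2 m3).lg z / (‖pol l z.1‖ * ‖pol l z.2‖) : ℝ) : ℂ)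
      * (wed (sgt l m1 m2 m3).M p z * conj (wed (sgt l m1 m2 m3).M q z))
      = ((((Lf z.1 * (‖z.1‖ ^ 2 / ‖pol l z.1‖)) * (a * a') + (Lf z.1 * (1 / ‖pol l z.1‖)) * (b * b')
          + (Lf z.1 * (z.1.im / ‖pol l z.1‖)) * (a * b' + b * a') : ℝ) : ℂ)
          + I * ((-(Lf z.1 * rho l z.1) * (a * b' - b * a') : ℝ) : ℂ))
        * ((16 * (‖z.2‖ ^ 2 / ‖pol l z.2‖) : ℝ) : ℂ) := by
    intro z
    have h1 : (sgt l m1 m2 m3).lg z = Lf z.1 := by
      have : ((0 : ℂ →₀ ℤ).sum fun b n => (n : ℝ) * Real.log ‖z.2 - b‖) = 0 := rfl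
      simp only [Term.lg, sgt, Lf, this]
      rw [Finsupp.sum_add_index' (by simp) (by intros; push_cast; ring),
        Finsupp.sum_single_index (by simp), Finsupp.sum_single_index (by simp)]
      simp
      ring
    have h2 : (sgt l m1 m2 m3).M = mat m1 m2 m3 0 := rfl
    rw [h1, h2, wed_sgt, wed_sgt, ← ha, ← hb, ← ha', ← hb']
    simp only [map_mul, map_add, conj_ofReal, conj_I]
    have h4 : (conj (4 : ℂ)) = 4 := by simpa using conj_ofReal 4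
    have h5 := mul_conj' z.1
    have h6 := mul_conj' z.2
    have h7 : (z.1 : ℂ) = z.1.re + z.1.im * I := (re_add_im z.1).symm
    have h8 : conj z.1 = z.1.re - z.1.im * I := by
      apply Complex.ext <;> simp
    have h9 : (((Lf z.1 / (‖pol l z.1‖ * ‖pol l z.2‖) : ℝ) : ℂ))
        = (Lf z.1 / ‖pol l z.1‖ : ℝ) * (1 / ‖pol l z.2‖ : ℝ) := by
      rw [← ofReal_mul]; congr 1; ring
    rw [h4, h9]
    have h10 : (((Lf z.1 / ‖pol l z.1‖ : ℝ) : ℂ) * ((1 / ‖pol l z.2‖ : ℝ) : ℂ))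
        * (4 * z.2 * (z.1 * (a : ℂ) + I * (b : ℂ)) * (4 * conj z.2 * (conj z.1 * (a' : ℂ) + -I * (b' : ℂ))))
        = ((Lf z.1 / ‖pol l z.1‖ : ℝ) : ℂ) * ((z.1 * conj z.1) * (a * a') + (b * b')
          + (- I * z.1) * (a * b') + (I * conj z.1) * (b * a'))
          * (16 * ((z.2 * conj z.2) * ((1 / ‖pol l z.2‖ : ℝ) : ℂ))) := by
      linear_combination (-((Lf z.1 / ‖pol l z.1‖ : ℝ) : ℂ) * ((1 / ‖pol l z.2‖ : ℝ) : ℂ) * 16
        * (z.2 * conj z.2) * b * b') * I_sq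
    rw [h10, h5, h6]
    have h11 : -I * z.1 = z.1.im - I * z.1.re := by
      conv_lhs => rw [h7]
      linear_combination (-(z.1.im : ℂ)) * I_sq
    have h12 : I * conj z.1 = z.1.im + I * z.1.re := by
      rw [h8]
      linear_combination (-(z.1.im : ℂ)) * I_sq
    rw [h11, h12, rho]
    push_cast
    ring
  have h0 : ((sgt l m1 m2 m3).n : ℂ) = 1 := by simp [sgt]
  unfold Term.reg
  rw [h0, one_mul]
  simp_rw [e]
  rw [← ha, ← hb, ← ha', ← hb']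
  have hmul := integral_prod_mul (μ := (volume : Measure ℂ)) (ν := (volume : Measure ℂ))
    (fun u : ℂ => (((Lf u * (‖u‖ ^ 2 / ‖pol l u‖)) * (a * a') + (Lf u * (1 / ‖pol l u‖)) * (b * b')
          + (Lf u * (u.im / ‖pol l u‖)) * (a * b' + b * a') : ℝ) : ℂ)
          + I * ((-(Lf u * rho l u) * (a * b' - b * a') : ℝ) : ℂ))
    (fun u : ℂ => ((16 * (‖u‖ ^ 2 / ‖pol l u‖) : ℝ) : ℂ))
  have i1 : Integrable fun u : ℂ => Lf u * (‖u‖ ^ 2 / ‖pol l u‖) :=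
    Lf_int hl (measurable_norm.pow_const 2) fun u => by
      rw [abs_of_nonneg (by positivity)]; linarith
  have i2 : Integrable fun u : ℂ => Lf u * (1 / ‖pol l u‖) :=
    Lf_int hl (h := fun _ => 1) measurable_const fun u => by
      rw [abs_one]; nlinarith [sq_nonneg ‖u‖]
  have i3 : Integrable fun u : ℂ => Lf u * (u.im / ‖pol l u‖) :=
    Lf_int hl measurable_im fun u => by
      have := abs_im_le_norm u
      nlinarith [sq_nonneg (1 - ‖u‖), norm_nonneg u]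
  have i4 : Integrable fun u : ℂ => Lf u * rho l u :=
    Lf_int hl measurable_re fun u => by
      have := abs_re_le_norm u
      nlinarith [sq_nonneg (1 - ‖u‖), norm_nonneg u]
  have hm : ∫ z : ℂ × ℂ, ((((Lf z.1 * (‖z.1‖ ^ 2 / ‖pol l z.1‖)) * (a * a')
          + (Lf z.1 * (1 / ‖pol l z.1‖)) * (b * b')
          + (Lf z.1 * (z.1.im / ‖pol l z.1‖)) * (a * b' + b * a') : ℝ) : ℂ)
          + I * ((-(Lf z.1 * rho l z.1) * (a * b' - b * a') : ℝ) : ℂ))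
        * ((16 * (‖z.2‖ ^ 2 / ‖pol l z.2‖) : ℝ) : ℂ) = _ := hmul
  have hX : Integrable fun u : ℂ => (Lf u * (‖u‖ ^ 2 / ‖pol l u‖)) * (a * a')
      + (Lf u * (1 / ‖pol l u‖)) * (b * b') + (Lf u * (u.im / ‖pol l u‖)) * (a * b' + b * a') :=
    ((i1.mul_const _).add (i2.mul_const _)).add (i3.mul_const _)
  have hY : Integrable fun u : ℂ => -(Lf u * rho l u) * (a * b' - b * a') := i4.neg.mul_const _
  have hKK : ∫ y : ℂ, ((16 * (‖y‖ ^ 2 / ‖pol l y‖) : ℝ) : ℂ) = ((16 * KK l : ℝ) : ℂ) := by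
    rw [integral_complex_ofReal, integral_const_mul, KK]
  have hY' : ∫ u : ℂ, -(Lf u * rho l u) * (a * b' - b * a')
      = -(∫ u : ℂ, Lf u * rho l u) * (a * b' - b * a') := by
    rw [integral_mul_const, integral_neg]
  rw [hm, int_cplx hX hY, int_three i1 i2 i3, hY', hKK]
  push_cast
  ring

end Pool.Agent.Helper14.EP
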