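import Pool.Agent.Helper14.EP.INT

/-!
# Integrability of the regulator integrands
-/

noncomputable section

open Complex MeasureTheory ComplexConjugate

namespace Pool.Agent.Helper14.EP

variable {l : ℂ}

theorem wt_prod (hl : Good l) : Integrable fun z : ℂ × ℂ => wt l z.1 * wt l z.2 :=
  (int_wt hl).mul_prod (int_wt hl)

theorem lg_wt (hl : Good l) (t : Term l) :
    Integrable fun z : ℂ × ℂ => t.lg z * (wt l z.1 * wt l z.2) := by
  have e : (fun z : ℂ × ℂ => t.lg z * (wt l z.1 * wt l z.2)) = fun z =>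
      (Real.log ‖t.c‖ * (wt l z.1 * wt l z.2)
        + ∑ a ∈ t.A.support, (t.A a : ℝ) * ((Real.log ‖z.1 - a‖ * wt l z.1) * wt l z.2))
        + (∑ b ∈ t.B.support, (t.B b : ℝ) * (wt l z.1 * (Real.log ‖z.2 - b‖ * wt l z.2)))
        + (t.k : ℝ) * (Real.log ‖z.1 - z.2‖ * (wt l z.1 * wt l z.2)) := by
    funext z
    simp only [Term.lg, Finsupp.sum, add_mul, Finset.sum_mul]
    congr 1
    · congr 1
      · congr 1
        exact Finset.sum_congr rfl fun a _ => by ring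
      · exact Finset.sum_congr rfl fun a _ => by ring
    · ring
  rw [e]
  refine Integrable.add (Integrable.add (Integrable.add ?_ ?_) ?_) ?_
  · exact (wt_prod hl).const_mul _
  · exact integrable_finsetSum _ fun a _ =>
      ((int_log hl a).mul_prod (int_wt hl)).const_mul _
  · exact integrable_finsetSum _ fun a _ =>
      ((int_wt hl).mul_prod (int_log hl a)).const_mul _
  · exact (int_log2 hl).const_mul _

/-- multiplication by a continuous function bounded by `C (1 + |u|²) (1 + |v|²)` -/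
theorem int_of_bound (hl : Good l) (t : Term l) {g : ℂ × ℂ → ℂ} (hg : Continuous g) {C : ℝ}
    (hC : ∀ z, ‖g z‖ ≤ C * ((1 + ‖z.1‖ ^ 2) * (1 + ‖z.2‖ ^ 2))) :
    Integrable fun z : ℂ × ℂ => ((t.lg z / (‖pol l z.1‖ * ‖pol l z.2‖) : ℝ) : ℂ) * g z := by
  have hpos : ∀ z : ℂ × ℂ, 0 < (1 + ‖z.1‖ ^ 2) * (1 + ‖z.2‖ ^ 2) := fun z => by positivity
  have h1 : Integrable fun z : ℂ × ℂ => ((t.lg z * (wt l z.1 * wt l z.2) : ℝ) : ℂ) :=
    (lg_wt hl t).ofReal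
  have hc : Continuous fun z : ℂ × ℂ => g z / (((1 + ‖z.1‖ ^ 2) * (1 + ‖z.2‖ ^ 2) : ℝ) : ℂ) := by
    refine hg.div ?_ fun z => by exact_mod_cast (hpos z).ne'
    exact continuous_ofReal.comp (by fun_prop)
  have h2 := h1.bdd_mul (c := C) hc.aestronglyMeasurable (Filter.Eventually.of_forall fun z => by
    rw [norm_div, norm_real, Real.norm_of_nonneg (hpos z).le, div_le_iff₀ (hpos z)]
    exact hC z)
  refine h2.congr (Filter.Eventually.of_forall fun z => ?_)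
  have h3 : (((1 + ‖z.1‖ ^ 2) * (1 + ‖z.2‖ ^ 2) : ℝ) : ℂ) ≠ 0 := by exact_mod_cast (hpos z).ne'
  simp only [wt]
  have h4 : t.lg z * ((1 + ‖z.1‖ ^ 2) / ‖pol l z.1‖ * ((1 + ‖z.2‖ ^ 2) / ‖pol l z.2‖))
      = ((1 + ‖z.1‖ ^ 2) * (1 + ‖z.2‖ ^ 2)) * (t.lg z / (‖pol l z.1‖ * ‖pol l z.2‖)) := by
    rw [div_mul_div_comm, mul_div_assoc', mul_comm (t.lg z), mul_div_assoc]
  rw [h4, ofReal_mul (((1 + ‖z.1‖ ^ 2) * (1 + ‖z.2‖ ^ 2)))]
  generalize (((1 + ‖z.1‖ ^ 2) * (1 + ‖z.2‖ ^ 2) : ℝ) : ℂ) = X at h3 ⊢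
  field_simp

theorem bound_cA (M : Matrix (Fin 4) (Fin 4) ℤ) : ∃ D : ℝ, 0 ≤ D ∧ (∀ u i, ‖cA M u i‖ ≤ D * (1 + ‖u‖)) ∧
    ∀ u i, ‖cB M u i‖ ≤ D * (1 + ‖u‖) := by
  refine ⟨2 * ∑ i, ∑ j, |(M i j : ℝ)|, by positivity, fun u i => ?_, fun u i => ?_⟩
  · have h : ∀ j, |(M i j : ℝ)| ≤ ∑ i, ∑ j, |(M i j : ℝ)| := fun j =>
      (Finset.single_le_sum (f := fun j => |(M i j : ℝ)|) (fun _ _ => abs_nonneg _)
        (Finset.mem_univ j)).trans (Finset.single_le_sum (f := fun i => ∑ j, |(M i j : ℝ)|)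
          (fun _ _ => Finset.sum_nonneg fun _ _ => abs_nonneg _) (Finset.mem_univ i))
    calc ‖cA M u i‖ ≤ ‖2 * u * (M i 0 : ℂ)‖ + ‖2 * I * (M i 1 : ℂ)‖ := norm_add_le _ _
      _ = 2 * ‖u‖ * |(M i 0 : ℝ)| + 2 * |(M i 1 : ℝ)| := by simp
      _ ≤ _ := by
        have h0 := h 0
        have h1 := h 1
        have hu := norm_nonneg u
        nlinarith [mul_le_mul_of_nonneg_left h0 hu]
  · have h : ∀ j, |(M i j : ℝ)| ≤ ∑ i, ∑ j, |(M i j : ℝ)| := fun j =>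
      (Finset.single_le_sum (f := fun j => |(M i j : ℝ)|) (fun _ _ => abs_nonneg _)
        (Finset.mem_univ j)).trans (Finset.single_le_sum (f := fun i => ∑ j, |(M i j : ℝ)|)
          (fun _ _ => Finset.sum_nonneg fun _ _ => abs_nonneg _) (Finset.mem_univ i))
    calc ‖cB M u i‖ ≤ ‖2 * u * (M i 2 : ℂ)‖ + ‖2 * I * (M i 3 : ℂ)‖ := norm_add_le _ _
      _ = 2 * ‖u‖ * |(M i 2 : ℝ)| + 2 * |(M i 3 : ℝ)| := by simp
      _ ≤ _ := by
        have h0 := h 2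
        have h1 := h 3
        have hu := norm_nonneg u
        nlinarith [mul_le_mul_of_nonneg_left h0 hu]

theorem cA_cont (M : Matrix (Fin 4) (Fin 4) ℤ) (i : Fin 4) : Continuous fun u => cA M u i := by
  unfold cA; fun_prop

theorem cB_cont (M : Matrix (Fin 4) (Fin 4) ℤ) (i : Fin 4) : Continuous fun u => cB M u i := by
  unfold cB; fun_prop

theorem wed_cont (M : Matrix (Fin 4) (Fin 4) ℤ) (a : Fin 6) : Continuous fun z => wed M a z := by
  unfold wed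
  exact (((cA_cont M _).comp continuous_fst).mul ((cB_cont M _).comp continuous_snd)).sub
    (((cA_cont M _).comp continuous_fst).mul ((cB_cont M _).comp continuous_snd))

theorem wed_bound (M : Matrix (Fin 4) (Fin 4) ℤ) : ∃ D : ℝ, 0 ≤ D ∧ ∀ a z,
    ‖wed M a z‖ ≤ D * ((1 + ‖z.1‖) * (1 + ‖z.2‖)) := by
  obtain ⟨D, hD, h1, h2⟩ := bound_cA M
  refine ⟨2 * D ^ 2, by positivity, fun a z => ?_⟩
  have hb : ∀ i j, ‖cA M z.1 i * cB M z.2 j‖ ≤ D ^ 2 * ((1 + ‖z.1‖) * (1 + ‖z.2‖)) := by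
    intro i j
    rw [norm_mul]
    calc ‖cA M z.1 i‖ * ‖cB M z.2 j‖ ≤ (D * (1 + ‖z.1‖)) * (D * (1 + ‖z.2‖)) :=
          mul_le_mul (h1 _ _) (h2 _ _) (norm_nonneg _) (by positivity)
      _ = _ := by ring
  calc ‖wed M a z‖ ≤ _ := norm_sub_le _ _
    _ ≤ _ := add_le_add (hb _ _) (hb _ _)
    _ = _ := by ring

theorem term_int (hl : Good l) (t : Term l) (a b : Fin 6) : Integrable fun z : ℂ × ℂ =>
    ((t.lg z / (‖pol l z.1‖ * ‖pol l z.2‖) : ℝ) : ℂ) * (wed t.M a z * conj (wed t.M b z)) := by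
  obtain ⟨D, hD, h⟩ := wed_bound t.M
  refine int_of_bound hl t ((wed_cont _ a).mul (continuous_conj.comp (wed_cont _ b)))
    (C := 4 * D ^ 2) fun z => ?_
  rw [norm_mul, RCLike.norm_conj]
  have h1 : (1 + ‖z.1‖) ^ 2 ≤ 2 * (1 + ‖z.1‖ ^ 2) := by nlinarith [sq_nonneg (1 - ‖z.1‖)]
  have h2 : (1 + ‖z.2‖) ^ 2 ≤ 2 * (1 + ‖z.2‖ ^ 2) := by nlinarith [sq_nonneg (1 - ‖z.2‖)]
  calc ‖wed t.M a z‖ * ‖wed t.M b z‖
      ≤ (D * ((1 + ‖z.1‖) * (1 + ‖z.2‖))) * (D * ((1 + ‖z.1‖) * (1 + ‖z.2‖))) :=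
        mul_le_mul (h _ _) (h _ _) (norm_nonneg _) (by positivity)
    _ = D ^ 2 * ((1 + ‖z.1‖) ^ 2 * (1 + ‖z.2‖) ^ 2) := by ring
    _ ≤ D ^ 2 * ((2 * (1 + ‖z.1‖ ^ 2)) * (2 * (1 + ‖z.2‖ ^ 2))) :=
        mul_le_mul_of_nonneg_left (mul_le_mul h1 h2 (by positivity) (by positivity)) (by positivity)
    _ = _ := by ring

theorem lg_int (hl : Good l) (t : Term l) : Integrable fun z : ℂ × ℂ =>
    t.lg z / (‖pol l z.1‖ * ‖pol l z.2‖) * (z.1.re * z.2.re) := by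
  have h := int_of_bound hl t (g := fun z => ((z.1.re * z.2.re : ℝ) : ℂ))
    (continuous_ofReal.comp (by fun_prop)) (C := 1) (fun z => by
      rw [norm_real, norm_mul, one_mul]
      refine mul_le_mul ?_ ?_ (norm_nonneg _) (by positivity)
      · have := abs_re_le_norm z.1
        rw [Real.norm_eq_abs]
        nlinarith [sq_nonneg (1 - ‖z.1‖), norm_nonneg z.1]
      · have := abs_re_le_norm z.2
        rw [Real.norm_eq_abs]
        nlinarith [sq_nonneg (1 - ‖z.2‖), norm_nonneg z.2])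
  have h2 := h.re
  refine h2.congr (Filter.Eventually.of_forall fun z => ?_)
  simp only [← ofReal_mul]
  exact ofReal_re _

end Pool.Agent.Helper14.EP
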